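import Pool.Agent.Helper75.LM.Defs
import Pool.Agent.Helper54.LP.Pt

/-!
# Project LM: the two moments
-/

open MeasureTheory Real Set Filter Topology Metric
open scoped ENNReal NNReal

set_option autoImplicit false

namespace Pool.Agent.Helper75.LM

open Pool.Agent.Helper22.AE
open Pool.Agent.Helper92.GC (dt tp sqa)
open Pool.Agent.Helper92.DT (m12 m12_nonneg)
open Pool.Agent.Helper75.TW (m20 J20 m20_nonneg m20_cont_coef)
open Pool.Agent.Helper92.LA (JJ Fb HL WL m12_cont_coef)
open Pool.Agent.Helper22.LP (Fr fk fdet hom LS)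

/-- the window, from the bound at neighbouring radii -/
theorem win_of_pt {G : ℝ → ℝ} (hG : Continuous G) (hG0 : ∀ r, 0 ≤ G r) {L A : ℝ} {N : ℕ} (hN : 1 ≤ N) (hA : 0 ≤ A) (hL : 0 ≤ L) {r : ℝ}
    (h : ∀ r' : ℝ, |r - r'| ≤ 1 / N → L ≤ A * G r') {τ : ℝ} (hτ : 0 < τ) {r₀ : ℝ} (hr : |r - r₀| ≤ τ) :
    L ≤ A * (N + 1 / τ) * ∫ r' in Icc (r₀ - 2 * τ) (r₀ + 2 * τ), G r' := by
  have hNr : (1 : ℝ) ≤ N := by exact_mod_cast hN
  have hN0 : (0 : ℝ) < N := by linarith
  obtain ⟨s, hs⟩ : ∃ s : ℝ, s = min (1 / (N : ℝ)) τ := ⟨_, rfl⟩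
  have hs0 : 0 < s := by
    rw [hs]
    exact lt_min (by positivity) hτ
  have hsN : s ≤ 1 / N := by
    rw [hs]
    exact min_le_left _ _
  have hsτ : s ≤ τ := by
    rw [hs]
    exact min_le_right _ _
  have hr' := abs_le.1 hr
  have hvol : (volume (Icc r (r + s))).toReal = s := by
    rw [Real.volume_Icc, ENNReal.toReal_ofReal (by linarith)]
    ring
  have hJ : ∫ r' in Icc r (r + s), G r' ≤ ∫ r' in Icc (r₀ - 2 * τ) (r₀ + 2 * τ), G r' := by
    refine setIntegral_mono_set ?_ (Eventually.of_forall hG0) (Eventually.of_forall (Icc_subset_Icc (by linarith) (by linarith)))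
    exact hG.continuousOn.integrableOn_compact isCompact_Icc
  have h6 : L * s ≤ A * ∫ r' in Icc r (r + s), G r' := by
    have h7 : ∫ _r' in Icc r (r + s), L ≤ ∫ r' in Icc r (r + s), A * G r' := by
      refine setIntegral_mono_on ?_ ?_ measurableSet_Icc fun r' hr' => h r' ?_
      · exact continuousOn_const.integrableOn_compact isCompact_Icc
      · exact (continuous_const.mul hG).continuousOn.integrableOn_compact isCompact_Icc
      · rw [abs_le]
        constructor
        · linarith [hr'.2]
        · have := hr'.1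
          have h2 : 0 ≤ 1 / (N : ℝ) := by positivity
          linarith
    rw [integral_const_mul, setIntegral_const, Measure.real, hvol, smul_eq_mul] at h7
    linarith
  have h8 := h6.trans (mul_le_mul_of_nonneg_left hJ hA)
  have hI0 : 0 ≤ ∫ r' in Icc (r₀ - 2 * τ) (r₀ + 2 * τ), G r' := integral_nonneg fun _ => hG0 _
  have hs1 : 1 / s ≤ N + 1 / τ := by
    rw [hs]
    rcases min_choice (1 / (N : ℝ)) τ with h | h <;> rw [h]
    · rw [one_div_one_div]
      have : 0 ≤ 1 / τ := by positivity
      linarith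
    · linarith
  calc L = L * s * (1 / s) := by field_simp
    _ ≤ A * (∫ r' in Icc (r₀ - 2 * τ) (r₀ + 2 * τ), G r') * (1 / s) := mul_le_mul_of_nonneg_right h8 (by positivity)
    _ ≤ A * (∫ r' in Icc (r₀ - 2 * τ) (r₀ + 2 * τ), G r') * (N + 1 / τ) := mul_le_mul_of_nonneg_left hs1 (by positivity)
    _ = _ := by ring

theorem md_20 : Md d20 J20 20 where
  eq := fun f h X N => rfl
  nonneg := fun f h r N => m20_nonneg _ _
  cont := fun f h hc N => by
    unfold d20
    refine m20_cont_coef (sqa N) (fun (q : ℝ × ℝ) k => ee (q.2 * h q.1 (fk f k))) fun k _ => ?_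
    exact ee_cont.comp (continuous_snd.mul (hc.comp (continuous_fst.prodMk continuous_const)))
  glob := fun M B hM => Pool.Agent.Helper75.TW.ls_le (M := M) (B := B) hM
  win := fun M B hM => by
    obtain ⟨C, hC, hl⟩ := Pool.Agent.Helper54.LP.ls_pt20 (M := M) (B := B) hM
    refine ⟨C, hC, fun f hf h hh w hw i hi N hN τ hτ r₀ r hr c => ?_⟩
    have hcont : Continuous fun r : ℝ => d20 f h r N := by
      unfold d20
      refine m20_cont_coef (sqa N) (fun (r : ℝ) k => ee (r * h (fk f k))) fun k _ => ?_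
      exact ee_cont.comp (continuous_id.mul continuous_const)
    exact win_of_pt hcont (fun r => m20_nonneg _ _) hN (by positivity) (by positivity) (fun r' hr' => hl f hf h hh w hw i hi N hN r r' hr' c) hτ hr

theorem md_12 : Md d12 JJ 12 where
  eq := fun f h X N => rfl
  nonneg := fun f h r N => m12_nonneg _ _
  cont := fun f h hc N => by
    unfold d12
    refine m12_cont_coef (sqa N) (fun (q : ℝ × ℝ) k => ee (q.2 * h q.1 (fk f k))) fun k _ => ?_
    exact ee_cont.comp (continuous_snd.mul (hc.comp (continuous_fst.prodMk continuous_const)))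
  glob := fun M B hM => Pool.Agent.Helper92.LA.ls_le (M := M) (B := B) hM
  win := fun M B hM => by
    obtain ⟨C, hC, hl⟩ := Pool.Agent.Helper54.LP.ls_pt12 (M := M) (B := B) hM
    refine ⟨C, hC, fun f hf h hh w hw i hi N hN τ hτ r₀ r hr c => ?_⟩
    have hcont : Continuous fun r : ℝ => d12 f h r N := by
      unfold d12
      refine m12_cont_coef (sqa N) (fun (r : ℝ) k => ee (r * h (fk f k))) fun k _ => ?_
      exact ee_cont.comp (continuous_id.mul continuous_const)
    exact win_of_pt hcont (fun r => m12_nonneg _ _) hN (by positivity) (by positivity) (fun r' hr' => hl f hf h hh w hw i hi N hN r r' hr' c) hτ hr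

end Pool.Agent.Helper75.LM
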