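import Pool.Agent.Helper75.LM.Core
import Pool.Agent.Helper75.GD.Tau
import Pool.Agent.Helper75.LM.Mom
import Pool.Agent.Helper33.LM.S3
import Pool.Agent.Helper33.LM.S6
import Pool.Agent.Helper64.LM.Num

/-!
# Project LM: almost every lattice
-/

open MeasureTheory Real Set Filter Topology Metric
open scoped ENNReal NNReal

set_option autoImplicit false

namespace Pool.Agent.Helper75.LM

open Pool.Agent.Helper22.AE
open Pool.Agent.Helper22.AC (cntc ga)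
open Pool.Agent.Helper22.OV (shf o3_k0_cont o3_k0_nonneg)
open Pool.Agent.Helper75.TW (m20 J20 Mm mm_J20 mm_JJ TB MomF F12 AffPos AffOk afn momS_all)
open Pool.Agent.Helper75.GD (WJ LB beta_pos75)
open Pool.Agent.Helper92.LA (JJ Fb HL WL lcnt dl)
open Pool.Agent.Helper22.LP (Fr fk fdet hom LS wr Hf)

/-- almost every frame, with the moments of order 20 -/
theorem frames20M {H : ℝ → ℝ} (hH : IsSupp H) {α₀ c₁ B : ℝ} (ha0 : 0 < α₀) (ha1 : α₀ < π / 2) (hc₁ : 0 < c₁) (hc₁1 : c₁ ≤ 1) (hB : 1 ≤ B)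
    (hjc : Continuous fun q : ℝ × (ℝ × ℝ) => hom (ga H q.1) q.2)
    (hfam : ∀ α ∈ Icc (-α₀) α₀, Pool.Agent.Helper60.LT.Hom c₁ B (hom (ga H α)) ∧ HL B (hom (ga H α)) ∧ WL B (wr H α) ∧ WL B (fun _ => 1))
    {P : (ℝ × ℝ → ℝ) → Prop} (hP : ∀ α ∈ Icc (-α₀) α₀, P (hom (ga H α)))
    (hq : MomF J20 (fun X N => X * (N ^ 20 + N ^ 34 * (X * N) ^ (-(7 / 4) : ℝ))) P 0 (1 / 3)) : ∀ᵐ f : Fr, 0 < fdet f → FM H 36 (9 / 17) f := by
  have h1 := ae_JF mm_J20 (fun X N hX hN => by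
      have hX0 : 0 < X := by linarith
      have hN0 : 0 < N := by linarith
      show 0 < X * (N ^ 20 + N ^ 34 * (X * N) ^ (-(7 / 4) : ℝ))
      positivity) hq (h := fun α => hom (ga H α)) hjc (α₀ := α₀) hP
    (κ := fun p n => k0 (1 / sqrt ((2 : ℝ) ^ p * ((2 ^ n : ℕ) : ℝ)))) (fun p n => o3_k0_cont (beta_pos75 p n)) (fun p n => o3_k0_nonneg (beta_pos75 p n))
    (K := 20) (fun p n => mass20 ha0 ha1 (beta_pos75 p n))
  have h2 := ae_JF mm_JJ (F := F12) (fun X N hX hN => by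
      have hX0 : 0 < X := by linarith
      have hN0 : 0 < N := by linarith
      unfold F12
      positivity) (Pool.Agent.Helper86.LK.momF12 hc₁ hc₁1 hB (momS_all hc₁ hc₁1 hB) (ν₂ := 0) (ν₃ := 1) le_rfl) (h := fun α => hom (ga H α)) hjc (α₀ := α₀)
    (fun α hα => (hfam α hα).1)
    (κ := fun p n => k0 (1 / sqrt ((2 : ℝ) ^ p * ((2 ^ n : ℕ) : ℝ)))) (fun p n => o3_k0_cont (beta_pos75 p n)) (fun p n => o3_k0_nonneg (beta_pos75 p n))
    (K := 20) (fun p n => mass20 ha0 ha1 (beta_pos75 p n))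
  filter_upwards [h1, h2] with f hf hf' hdet ε hε
  obtain ⟨e, he⟩ : ∃ e : ℝ, e = min (ε / 108) (1 / 102) := ⟨_, rfl⟩
  have he0 : 0 < e := by
    rw [he]
    exact lt_min (by linarith) (by norm_num)
  have he1 : e ≤ ε / 108 := by
    rw [he]
    exact min_le_left _ _
  have he2 : e ≤ 1 / 102 := by
    rw [he]
    exact min_le_right _ _
  obtain ⟨C₁, hC₁, hJ⟩ := hf hdet e he0
  obtain ⟨C₂, hC₂, hJ'⟩ := hf' hdet e he0
  have hX1 : ∀ p : ℕ, (1 : ℝ) ≤ 2 ^ p := fun p => one_le_pow₀ (by norm_num)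
  obtain ⟨C₀, hC₀⟩ : ∃ C₀ : ℝ, C₀ = 2 * (C₁ + C₂) := ⟨_, rfl⟩
  have key : ∀ (C T F W Xe : ℝ), 0 ≤ C → C ≤ C₁ + C₂ → 0 ≤ T → 0 ≤ Xe → F ≤ 2 * T → W ≤ C * (Xe * F) → W ≤ C₀ * (Xe * T) := by
    intro C T F W Xe hC hCC hT hXe hF hW
    calc W ≤ C * (Xe * F) := hW
      _ ≤ C * (Xe * (2 * T)) := mul_le_mul_of_nonneg_left (mul_le_mul_of_nonneg_left hF hXe) hC
      _ = C * (2 * (Xe * T)) := by ring
      _ ≤ (C₁ + C₂) * (2 * (Xe * T)) := mul_le_mul_of_nonneg_right hCC (by positivity)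
      _ = C₀ * (Xe * T) := by
        rw [hC₀]
        ring
  have hz : ∀ p n : ℕ, ((2 : ℝ) ^ p) ^ (0 : ℝ) ≤ (2 : ℝ) ^ n := fun p n => by
    rw [rpow_zero]
    exact hX1 n
  have hT : ∀ (q p n : ℕ), 0 ≤ TB q (9 / 17) ((2 : ℝ) ^ p) (2 ^ n) := fun q p n =>
    (Pool.Agent.Helper75.TW.TB_pos (by positivity) (by positivity)).le
  have hS : ∀ p n : ℕ, 0 ≤ SB 36 20 (9 / 17) ((2 : ℝ) ^ p) (2 ^ n) := fun p n => by
    unfold SB
    positivity
  obtain ⟨C, hC⟩ := frame_mom hH ha0 ha1 hjc (fun α hα => (hfam α hα).2) hdet.ne' md_20 md_12 (q := 20) (q' := 12) (P := 36) (by norm_num) (by norm_num)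
    (by norm_num) (by norm_num) (θ := 9 / 17) (ν₂ := 1 / 4) (by norm_num) (by norm_num) he0 (by linarith) (C₁ := C₀) (by rw [hC₀]; positivity)
    (fun p n hn a => key C₁ _ _ _ _ hC₁ (by linarith) (hS p n) (by positivity)
      (num_a (hX1 p) (hX1 n) (by rw [show (2 * (9 / 17) - 1 : ℝ) = 1 / 17 by norm_num] at a; exact a))
      (hJ p n hn (hz p n) (a.trans (rpow_le_rpow_of_exponent_le (hX1 p) (by norm_num)))))
    (fun p n hn a b => key C₁ _ _ _ _ hC₁ (by linarith) (hT 20 p n) (by positivity)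
      (num_b (hX1 p) (hX1 n) (by rw [show (2 * (9 / 17) - 1 : ℝ) = 1 / 17 by norm_num] at a; exact a) b)
      (hJ p n hn (hz p n) (b.trans (rpow_le_rpow_of_exponent_le (hX1 p) (by norm_num)))))
    (fun p n hn _ b c => key C₂ _ _ _ _ hC₂ (by linarith) (hT 12 p n) (by positivity)
      (num_c (hX1 p) (hX1 n) b (c.trans (rpow_le_rpow_of_exponent_le (hX1 p) (by linarith))))
      (hJ' p n hn (hz p n) (c.trans (rpow_le_rpow_of_exponent_le (hX1 p) (by linarith)))))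
  refine ⟨|C|, fun X hX => (hC X hX).trans (ENNReal.ofReal_le_ofReal ?_)⟩
  have hX0 : 0 < X := by linarith
  refine (mul_le_mul_of_nonneg_right (le_abs_self C) (by positivity)).trans (mul_le_mul_of_nonneg_left (rpow_le_rpow_of_exponent_le hX ?_) (abs_nonneg C))
  push_cast
  linarith

/-- almost every frame, every oval -/
theorem frames12M {H : ℝ → ℝ} (hH : IsSupp H) (h5 : ContDiff ℝ 5 H) : ∀ᵐ f : Fr, 0 < fdet f → FM H 20 (5 / 9) f := by
  obtain ⟨α₀, c₁, B, ha0, ha1, hc₁, hc₁1, hB, hjc, hfam⟩ := Pool.Agent.Helper92.LA.fam hH h5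
  have h2 := ae_JF mm_JJ (F := F12) (fun X N hX hN => by
      have hX0 : 0 < X := by linarith
      have hN0 : 0 < N := by linarith
      unfold F12
      positivity) (Pool.Agent.Helper86.LK.momF12 hc₁ hc₁1 hB (momS_all hc₁ hc₁1 hB) (ν₂ := 0) (ν₃ := 1) le_rfl) (h := fun α => hom (ga H α)) hjc (α₀ := α₀)
    (fun α hα => (hfam α hα).1)
    (κ := fun p n => k0 (1 / sqrt ((2 : ℝ) ^ p * ((2 ^ n : ℕ) : ℝ)))) (fun p n => o3_k0_cont (beta_pos75 p n)) (fun p n => o3_k0_nonneg (beta_pos75 p n))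
    (K := 20) (fun p n => mass20 ha0 ha1 (beta_pos75 p n))
  filter_upwards [h2] with f hf' hdet ε hε
  obtain ⟨e, he⟩ : ∃ e : ℝ, e = min (ε / 60) (1 / 102) := ⟨_, rfl⟩
  have he0 : 0 < e := by
    rw [he]
    exact lt_min (by linarith) (by norm_num)
  have he1 : e ≤ ε / 60 := by
    rw [he]
    exact min_le_left _ _
  have he2 : e ≤ 1 / 102 := by
    rw [he]
    exact min_le_right _ _
  obtain ⟨C₂, hC₂, hJ'⟩ := hf' hdet e he0
  have hX1 : ∀ p : ℕ, (1 : ℝ) ≤ 2 ^ p := fun p => one_le_pow₀ (by norm_num)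
  have key : ∀ (T F W Xe : ℝ), 0 ≤ T → 0 ≤ Xe → F ≤ 2 * T → W ≤ C₂ * (Xe * F) → W ≤ 2 * C₂ * (Xe * T) := by
    intro T F W Xe hT hXe hF hW
    calc W ≤ C₂ * (Xe * F) := hW
      _ ≤ C₂ * (Xe * (2 * T)) := mul_le_mul_of_nonneg_left (mul_le_mul_of_nonneg_left hF hXe) hC₂
      _ = _ := by ring
  have hz : ∀ p n : ℕ, ((2 : ℝ) ^ p) ^ (0 : ℝ) ≤ (2 : ℝ) ^ n := fun p n => by
    rw [rpow_zero]
    exact hX1 n
  have hT : ∀ (q p n : ℕ), 0 ≤ TB q (5 / 9) ((2 : ℝ) ^ p) (2 ^ n) := fun q p n =>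
    (Pool.Agent.Helper75.TW.TB_pos (by positivity) (by positivity)).le
  have hS : ∀ p n : ℕ, 0 ≤ SB 20 12 (5 / 9) ((2 : ℝ) ^ p) (2 ^ n) := fun p n => by
    unfold SB
    positivity
  have hmid : ∀ p n : ℕ, n ≤ p → ((2 : ℝ) ^ p) ^ (2 * (5 / 9) - 1 : ℝ) ≤ (2 : ℝ) ^ n → (2 : ℝ) ^ n ≤ ((2 : ℝ) ^ p) ^ (1 / 2 + e) →
      WJ JJ H α₀ p n f ≤ 2 * C₂ * (((2 : ℝ) ^ p) ^ e * TB 12 (5 / 9) ((2 : ℝ) ^ p) (2 ^ n)) := fun p n hn a c =>
    key _ _ _ _ (hT 12 p n) (by positivity)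
      (num_e (hX1 p) (hX1 n) (by rw [show (2 * (5 / 9) - 1 : ℝ) = 1 / 9 by norm_num] at a; exact a) (c.trans (rpow_le_rpow_of_exponent_le (hX1 p) (by linarith))))
      (hJ' p n hn (hz p n) (c.trans (rpow_le_rpow_of_exponent_le (hX1 p) (by linarith))))
  obtain ⟨C, hC⟩ := frame_mom hH ha0 ha1 hjc (fun α hα => (hfam α hα).2) hdet.ne' md_12 md_12 (q := 12) (q' := 12) (P := 20) (by norm_num) (by norm_num)
    (by norm_num) (by norm_num) (θ := 5 / 9) (ν₂ := 1 / 2) (by norm_num) (by norm_num) he0 (by linarith) (C₁ := 2 * C₂) (by positivity)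
    (fun p n hn a => key _ _ _ _ (hS p n) (by positivity)
      (num_d (hX1 p) (hX1 n) (by rw [show (2 * (5 / 9) - 1 : ℝ) = 1 / 9 by norm_num] at a; exact a))
      (hJ' p n hn (hz p n) (a.trans (rpow_le_rpow_of_exponent_le (hX1 p) (by norm_num)))))
    (fun p n hn a b => hmid p n hn a (b.trans (rpow_le_rpow_of_exponent_le (hX1 p) (by linarith))))
    (fun p n hn a _ c => hmid p n hn a c)
  refine ⟨|C|, fun X hX => (hC X hX).trans (ENNReal.ofReal_le_ofReal ?_)⟩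
  have hX0 : 0 < X := by linarith
  refine (mul_le_mul_of_nonneg_right (le_abs_self C) (by positivity)).trans (mul_le_mul_of_nonneg_left (rpow_le_rpow_of_exponent_le hX ?_) (abs_nonneg C))
  push_cast
  linarith

/-- every oval of class `C⁵` -/
theorem lm_12 {H : ℝ → ℝ} (h5 : ContDiff ℝ 5 H) (hp : Function.Periodic H (2 * π)) (hr : ∀ t, 0 < H t + deriv (deriv H) t) :
    ∀ᵐ ab : Fr, fdet ab ≠ 0 ∧ LMo H 20 (5 / 9) ab := by
  obtain ⟨v, hv⟩ := Pool.Agent.Helper22.OV.exists_shift (h5.of_le (by norm_num)) hp hr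
  filter_upwards [lattM_ae hv.per (frames12M hv (Pool.Agent.Helper22.OV.shf_smooth v h5))] with ab h
  exact ⟨h.1, LMo_shf v h.2⟩

/-- ovals with positive affine curvature -/
theorem lm_aff {H : ℝ → ℝ} (h6 : ContDiff ℝ 6 H) (hp : Function.Periodic H (2 * π)) (hr : ∀ t, 0 < H t + deriv (deriv H) t) (ha : AffPos H) :
    ∀ᵐ ab : Fr, fdet ab ≠ 0 ∧ LMo H 36 (9 / 17) ab := by
  have h2 : ContDiff ℝ 2 H := h6.of_le (by norm_num)
  obtain ⟨v, hv⟩ := Pool.Agent.Helper22.OV.exists_shift h2 hp hr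
  have e : rho (Pool.Agent.Helper22.OV.shf H v) = rho H := by
    funext t
    exact Pool.Agent.Helper22.OV.shf_rho v h2 t
  have ha' : AffPos (Pool.Agent.Helper22.OV.shf H v) := by
    intro t
    rw [e]
    exact ha t
  have h6' := Pool.Agent.Helper22.OV.shf_smooth v h6
  obtain ⟨α₀, c₁, B, ha0, ha1, hc₁, hc₁1, hB, hjc, hfam⟩ := Pool.Agent.Helper3.AC.fam_aff hv h6' ha'
  filter_upwards [lattM_ae hv.per (frames20M hv ha0 ha1 hc₁ hc₁1 hB hjc
    (fun α hα => ⟨(hfam α hα).1.hom, (hfam α hα).2⟩) (fun α hα => (hfam α hα).1) (Pool.Agent.Helper3.AC.mom_cpt20 hc₁ hB))] with ab h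
  exact ⟨h.1, LMo_shf v h.2⟩

/-- ovals whose affine curvature has no multiple zero -/
theorem lm_gen {H : ℝ → ℝ} (h7 : ContDiff ℝ 7 H) (hp : Function.Periodic H (2 * π)) (hr : ∀ t, 0 < H t + deriv (deriv H) t) (ha : AffOk H) :
    ∀ᵐ ab : Fr, fdet ab ≠ 0 ∧ LMo H 36 (9 / 17) ab := by
  have h2 : ContDiff ℝ 2 H := h7.of_le (by norm_num)
  obtain ⟨v, hv⟩ := Pool.Agent.Helper22.OV.exists_shift h2 hp hr
  have e : rho (Pool.Agent.Helper22.OV.shf H v) = rho H := by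
    funext t
    exact Pool.Agent.Helper22.OV.shf_rho v h2 t
  have e2 : afn (Pool.Agent.Helper22.OV.shf H v) = afn H := by
    unfold afn
    rw [e]
  have ha' : AffOk (Pool.Agent.Helper22.OV.shf H v) := by
    intro t
    rw [e2]
    exact ha t
  have h7' := Pool.Agent.Helper22.OV.shf_smooth v h7
  obtain ⟨α₀, c₁, B, ha0, ha1, hc₁, hc₁1, hB, hjc, hfam⟩ := Pool.Agent.Helper92.AG.fam_gen hv h7' ha'
  filter_upwards [lattM_ae hv.per (frames20M hv ha0 ha1 hc₁ hc₁1 hB hjc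
    (fun α hα => ⟨(hfam α hα).1.hom, (hfam α hα).2⟩) (fun α hα => (hfam α hα).1) (Pool.Agent.Helper92.AG.mom_cptG hc₁ hB))] with ab h
  exact ⟨h.1, LMo_shf v h.2⟩

end Pool.Agent.Helper75.LM
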