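import Pool.Agent.Helper75.LM.Defs

/-!
# Project LM: all orders
-/

open MeasureTheory Real Set Filter Topology Metric
open scoped ENNReal NNReal

set_option autoImplicit false

namespace Pool.Agent.Helper75.LM

/-- abstract form: from the bound and the moment of order `P` to all moments -/
theorem all_p_gen {T : ℝ → ℝ × ℝ → ℝ} (hT : ∀ R c, 0 ≤ T R c) {P : ℕ} (hP : 1 ≤ P) {θ : ℝ} (hθ : 1 / 2 < θ) (hPθ : (P : ℝ) * (θ - 1 / 2) = 2 * θ)
    (h1 : ∀ ε : ℝ, 0 < ε → ∃ C : ℝ, ∀ R : ℝ, 1 ≤ R → ∀ c : ℝ × ℝ, T R c ≤ C * R ^ (θ + ε))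
    (h2 : ∀ ε : ℝ, 0 < ε → ∃ C : ℝ, ∀ X : ℝ, 1 ≤ X → ∫⁻ R in Icc X (2 * X), ⨆ c : ℝ × ℝ, ENNReal.ofReal (T R c ^ P) ≤
      ENNReal.ofReal (C * X ^ ((P : ℝ) * θ - (2 * θ - 1) + ε))) {p : ℝ} (hp : 0 < p) {ε : ℝ} (hε : 0 < ε) :
    ∃ C : ℝ, ∀ X : ℝ, 1 ≤ X → ∫⁻ R in Icc X (2 * X), ⨆ c : ℝ × ℝ, ENNReal.ofReal (T R c ^ p) ≤
      ENNReal.ofReal (C * X ^ (1 + p * (1 / 2 + (θ - 1 / 2) * max 0 (1 - P / p) + ε))) := by
  have hPr : (1 : ℝ) ≤ P := by exact_mod_cast hP
  rcases le_total (P : ℝ) p with hpP | hpP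
  · -- `P ≤ p`
    obtain ⟨η, hη⟩ : ∃ η : ℝ, η = p * ε / (p + 1) := ⟨_, rfl⟩
    have hη0 : 0 < η := by
      rw [hη]
      positivity
    have hη1 : η * (p + 1) = p * ε := by
      rw [hη]
      field_simp
    obtain ⟨C₁, hC₁⟩ := h1 η hη0
    obtain ⟨C₂, hC₂⟩ := h2 η hη0
    refine ⟨(|C₁| * 2 ^ (θ + η)) ^ (p - P) * |C₂|, fun X hX => ?_⟩
    have hX0 : 0 < X := by linarith
    have hpt : ∀ R ∈ Icc X (2 * X), (⨆ c : ℝ × ℝ, ENNReal.ofReal (T R c ^ p)) ≤
        ENNReal.ofReal ((|C₁| * (2 * X) ^ (θ + η)) ^ (p - P)) * ⨆ c : ℝ × ℝ, ENNReal.ofReal (T R c ^ P) := by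
      intro R hR
      refine iSup_le fun c => ?_
      refine le_trans ?_ (mul_le_mul_right (le_iSup (fun c : ℝ × ℝ => ENNReal.ofReal (T R c ^ P)) c) _)
      rw [← ENNReal.ofReal_mul (by positivity)]
      refine ENNReal.ofReal_le_ofReal ?_
      have hR0 : 0 < R := by linarith [hR.1]
      have h3 : T R c ≤ |C₁| * (2 * X) ^ (θ + η) := by
        refine (hC₁ R (hX.trans hR.1) c).trans ?_
        refine (mul_le_mul_of_nonneg_right (le_abs_self C₁) (by positivity)).trans ?_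
        exact mul_le_mul_of_nonneg_left (rpow_le_rpow hR0.le hR.2 (by linarith)) (abs_nonneg _)
      rcases (hT R c).eq_or_lt with h0 | h0
      · rw [← h0, zero_rpow (by linarith), zero_pow (by omega), mul_zero]
      · calc T R c ^ p = T R c ^ (p - P) * T R c ^ (P : ℝ) := by
              rw [← rpow_add h0]
              congr 1
              ring
          _ = T R c ^ (p - P) * T R c ^ P := by rw [rpow_natCast]
          _ ≤ _ := mul_le_mul_of_nonneg_right (rpow_le_rpow h0.le h3 (by linarith)) (by positivity)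
    refine (setLIntegral_mono' measurableSet_Icc hpt).trans ?_
    rw [lintegral_const_mul' _ _ ENNReal.ofReal_ne_top]
    refine (mul_le_mul_right (hC₂ X hX) _).trans ?_
    rw [← ENNReal.ofReal_mul (by positivity)]
    refine ENNReal.ofReal_le_ofReal ?_
    have e1 : 1 + p * (1 / 2 + (θ - 1 / 2) * max 0 (1 - P / p) + ε) = 1 + p * θ - 2 * θ + p * ε := by
      have h4 : 0 ≤ 1 - (P : ℝ) / p := by
        rw [sub_nonneg, div_le_one hp]
        exact hpP
      rw [max_eq_right h4]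
      have h5 : p * ((θ - 1 / 2) * (1 - P / p)) = p * (θ - 1 / 2) - P * (θ - 1 / 2) := by
        field_simp
      linarith
    have e2 : (|C₁| * (2 * X) ^ (θ + η)) ^ (p - P) = (|C₁| * 2 ^ (θ + η)) ^ (p - P) * X ^ ((θ + η) * (p - P)) := by
      rw [mul_rpow (by norm_num) hX0.le, ← mul_assoc, mul_rpow (by positivity) (by positivity), ← rpow_mul hX0.le]
    rw [e1, e2]
    calc (|C₁| * 2 ^ (θ + η)) ^ (p - P) * X ^ ((θ + η) * (p - P)) * (C₂ * X ^ ((P : ℝ) * θ - (2 * θ - 1) + η))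
        ≤ (|C₁| * 2 ^ (θ + η)) ^ (p - P) * X ^ ((θ + η) * (p - P)) * (|C₂| * X ^ ((P : ℝ) * θ - (2 * θ - 1) + η)) :=
          mul_le_mul_of_nonneg_left (mul_le_mul_of_nonneg_right (le_abs_self _) (by positivity)) (by positivity)
      _ = (|C₁| * 2 ^ (θ + η)) ^ (p - P) * |C₂| * X ^ ((θ + η) * (p - P) + ((P : ℝ) * θ - (2 * θ - 1) + η)) := by
          rw [rpow_add hX0 ((θ + η) * (p - P))]
          ring
      _ ≤ _ := by
          refine mul_le_mul_of_nonneg_left (rpow_le_rpow_of_exponent_le hX ?_) (by positivity)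
          have h6 : 0 ≤ η * (P : ℝ) := by positivity
          nlinarith
  · -- `p ≤ P`
    obtain ⟨C₂, hC₂⟩ := h2 (p * ε) (by positivity)
    refine ⟨1 + |C₂|, fun X hX => ?_⟩
    have hX0 : 0 < X := by linarith
    have hpt : ∀ R ∈ Icc X (2 * X), (⨆ c : ℝ × ℝ, ENNReal.ofReal (T R c ^ p)) ≤
        ENNReal.ofReal (X ^ (p / 2)) + ENNReal.ofReal (X ^ ((p - P) / 2)) * ⨆ c : ℝ × ℝ, ENNReal.ofReal (T R c ^ P) := by
      intro R hR
      refine iSup_le fun c => ?_
      refine le_trans ?_ (add_le_add le_rfl (mul_le_mul_right (le_iSup (fun c : ℝ × ℝ => ENNReal.ofReal (T R c ^ P)) c) _))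
      rw [← ENNReal.ofReal_mul (by positivity), ← ENNReal.ofReal_add (by positivity) (mul_nonneg (by positivity) (pow_nonneg (hT R c) _))]
      refine ENNReal.ofReal_le_ofReal ?_
      have hT0 := hT R c
      rcases le_total (T R c) (X ^ (1 / 2 : ℝ)) with h3 | h3
      · have h4 : T R c ^ p ≤ X ^ (p / 2) := by
          calc T R c ^ p ≤ (X ^ (1 / 2 : ℝ)) ^ p := rpow_le_rpow hT0 h3 hp.le
            _ = X ^ (p / 2) := by
              rw [← rpow_mul hX0.le]
              congr 1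
              ring
        have h5 : 0 ≤ X ^ ((p - P) / 2) * T R c ^ P := by positivity
        linarith
      · have hT1 : 0 < T R c := lt_of_lt_of_le (by positivity) h3
        have h4 : T R c ^ (p - P) ≤ X ^ ((p - P) / 2) := by
          calc T R c ^ (p - P) ≤ (X ^ (1 / 2 : ℝ)) ^ (p - P) := rpow_le_rpow_of_nonpos (by positivity) h3 (by linarith)
            _ = _ := by
              rw [← rpow_mul hX0.le]
              congr 1
              ring
        have h5 : T R c ^ p = T R c ^ (p - P) * T R c ^ P := by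
          rw [← rpow_natCast (T R c) P, ← rpow_add hT1]
          congr 1
          ring
        have h6 : 0 ≤ X ^ (p / 2) := by positivity
        rw [h5]
        have := mul_le_mul_of_nonneg_right h4 (pow_nonneg hT0 P)
        linarith
    refine (setLIntegral_mono' measurableSet_Icc hpt).trans ?_
    rw [lintegral_add_left measurable_const, lintegral_const_mul' _ _ ENNReal.ofReal_ne_top, setLIntegral_const]
    have hvol : volume (Icc X (2 * X)) = ENNReal.ofReal X := by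
      rw [Real.volume_Icc]
      congr 1
      ring
    rw [hvol]
    refine (add_le_add le_rfl (mul_le_mul_right (hC₂ X hX) _)).trans ?_
    have e1 : 1 + p * (1 / 2 + (θ - 1 / 2) * max 0 (1 - P / p) + ε) = 1 + p / 2 + p * ε := by
      have h4 : 1 - (P : ℝ) / p ≤ 0 := by
        rw [sub_nonpos, le_div_iff₀ hp, one_mul]
        exact hpP
      rw [max_eq_left h4]
      ring
    rw [e1, ← ENNReal.ofReal_mul (by positivity), ← ENNReal.ofReal_mul (by positivity)]
    refine (add_le_add le_rfl (ENNReal.ofReal_le_ofReal (mul_le_mul_of_nonneg_left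
      (mul_le_mul_of_nonneg_right (le_abs_self C₂) (by positivity)) (by positivity)))).trans ?_
    rw [← ENNReal.ofReal_add (by positivity) (by positivity)]
    refine ENNReal.ofReal_le_ofReal ?_
    have a1 : X ^ (p / 2) * X ≤ X ^ (1 + p / 2 + p * ε) := by
      calc X ^ (p / 2) * X = X ^ (p / 2 + 1) := by rw [rpow_add hX0, rpow_one]
        _ ≤ _ := rpow_le_rpow_of_exponent_le hX (by nlinarith)
    have a2 : X ^ ((p - P) / 2) * (|C₂| * X ^ ((P : ℝ) * θ - (2 * θ - 1) + p * ε)) = |C₂| * X ^ (1 + p / 2 + p * ε) := by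
      have h7 : X ^ ((p - P) / 2) * X ^ ((P : ℝ) * θ - (2 * θ - 1) + p * ε) = X ^ (1 + p / 2 + p * ε) := by
        rw [← rpow_add hX0]
        congr 1
        linarith
      calc X ^ ((p - P) / 2) * (|C₂| * X ^ ((P : ℝ) * θ - (2 * θ - 1) + p * ε)) =
            |C₂| * (X ^ ((p - P) / 2) * X ^ ((P : ℝ) * θ - (2 * θ - 1) + p * ε)) := by ring
        _ = _ := by rw [h7]
    rw [a2]
    linarith

open Pool.Agent.Helper22.AE
open Pool.Agent.Helper75.GD (LB)
open Pool.Agent.Helper92.LA (lcnt)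
open Pool.Agent.Helper22.LP (Fr fdet)

theorem all_p {H : ℝ → ℝ} {P : ℕ} (hP : 1 ≤ P) {θ : ℝ} (hθ : 1 / 2 < θ) (hPθ : (P : ℝ) * (θ - 1 / 2) = 2 * θ) {ab : Fr} (h1 : LB H θ ab) (h2 : LMo H P θ ab)
    {p : ℝ} (hp : 0 < p) {ε : ℝ} (hε : 0 < ε) :
    ∃ C : ℝ, ∀ X : ℝ, 1 ≤ X → ∫⁻ R in Icc X (2 * X), ⨆ c : ℝ × ℝ, ENNReal.ofReal (|lcnt ab H c R - area H * R ^ 2 / abs (fdet ab)| ^ p) ≤
      ENNReal.ofReal (C * X ^ (1 + p * (1 / 2 + (θ - 1 / 2) * max 0 (1 - P / p) + ε))) :=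
  all_p_gen (T := fun R c => |lcnt ab H c R - area H * R ^ 2 / abs (fdet ab)|) (fun _ _ => abs_nonneg _) hP hθ hPθ h1 h2 hp hε

end Pool.Agent.Helper75.LM
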