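import Pool.Agent.Helper75.LM.Defs
import Pool.Agent.Helper60.LM.Block

/-!
# Project LM: one block
-/

open MeasureTheory Real Set Filter Topology Metric
open scoped ENNReal NNReal

set_option autoImplicit false

namespace Pool.Agent.Helper75.LM

open Pool.Agent.Helper22.AE
open Pool.Agent.Helper22.AC (cntc ga)
open Pool.Agent.Helper22.OV (o3_k0_cont o3_k0_nonneg)
open Pool.Agent.Helper75.TW (TB)
open Pool.Agent.Helper75.GD (WJ beta_pos75)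
open Pool.Agent.Helper92.LA (Fb HL WL)
open Pool.Agent.Helper22.LP (Fr fk fdet hom LS wr Hf)

/-- one block, with all its properties -/
structure Blk (H : ℝ → ℝ) (f : Fr) (α₀ τ X : ℝ) (n P : ℕ) (Y : ℝ) (g : ℝ → ℝ → ℝ) (G : ℝ → ℝ) : Prop where
  int : ∀ R, IntegrableOn (g R) (Icc (-α₀) α₀)
  pt : ∀ R : ℝ, ∀ α ∈ Icc (-α₀) α₀, ∀ r ∈ Icc (X / 2) (4 * X), |r - R| ≤ τ → ∀ c : ℝ × ℝ,
    ‖LS f (hom (ga H α)) (wr H α) 1 (2 ^ n) r c‖ ≤ g R α ∧ ‖LS f (hom (ga H α)) (fun _ => 1) 2 (2 ^ n) r c‖ ≤ g R α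
  eq : ∀ R, ∫ α in Icc (-α₀) α₀, k0 (1 / sqrt (X * (2 ^ n : ℕ))) α * g R α = G R
  cont : Continuous G
  nonneg : ∀ R, 0 ≤ G R
  mom : ∫ R in Icc X (2 * X), G R ^ P ≤ Y

theorem root_le {q : ℕ} (hq : 1 ≤ q) {z Y : ℝ} (hz : 0 ≤ z) (h : z ^ q ≤ Y) : z ≤ Y ^ (1 / (q : ℝ)) := by
  have hq0 : (q : ℝ) ≠ 0 := by
    have : (0 : ℝ) < q := by exact_mod_cast hq
    exact this.ne'
  calc z = (z ^ q) ^ (1 / (q : ℝ)) := by
        rw [← rpow_natCast, ← rpow_mul hz, mul_one_div, div_self hq0, rpow_one]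
    _ ≤ Y ^ (1 / (q : ℝ)) := rpow_le_rpow (by positivity) h (by positivity)

theorem mass20 {α₀ β : ℝ} (h0 : 0 < α₀) (h1 : α₀ < π / 2) (hβ : 0 < β) : ∫ α in Icc (-α₀) α₀, k0 β α ≤ 20 := by
  have hpi := Real.pi_pos
  have h2 := k0_int hβ
  rw [intervalIntegral.integral_of_le (by linarith)] at h2
  refine le_trans (setIntegral_mono_set ?_ (Eventually.of_forall (o3_k0_nonneg hβ)) (Eventually.of_forall ?_)) h2
  · rw [← integrableOn_Icc_iff_integrableOn_Ioc]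
    exact (o3_k0_cont hβ).continuousOn.integrableOn_compact isCompact_Icc
  · intro x hx
    exact ⟨by linarith [hx.1], by linarith [hx.2]⟩

/-- the block of a moment -/
theorem blk_of {md J : Fr → (ℝ × ℝ → ℝ) → ℝ → ℕ → ℝ} {q P : ℕ} (hd : Md md J q) (hq : 1 ≤ q) (hqP : q ≤ P) {H : ℝ → ℝ}
    (hjc : Continuous fun q : ℝ × (ℝ × ℝ) => hom (ga H q.1) q.2) {α₀ : ℝ} (ha0 : 0 < α₀) (ha1 : α₀ < π / 2) {f : Fr} {C₂ : ℝ} (hC₂ : 0 < C₂)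
    (hwin : ∀ α ∈ Icc (-α₀) α₀, ∀ N : ℕ, 1 ≤ N → ∀ τ : ℝ, 0 < τ → ∀ r₀ r : ℝ, |r - r₀| ≤ τ → ∀ c : ℝ × ℝ,
      ‖LS f (hom (ga H α)) (wr H α) 1 N r c‖ ^ q ≤ C₂ * (N : ℝ) ^ 2 * (N + 1 / τ) * (∫ r' in Icc (r₀ - 2 * τ) (r₀ + 2 * τ), md f (hom (ga H α)) r' N) ∧
      ‖LS f (hom (ga H α)) (fun _ => 1) 2 N r c‖ ^ q ≤ C₂ * (N : ℝ) ^ 2 * (N + 1 / τ) * (∫ r' in Icc (r₀ - 2 * τ) (r₀ + 2 * τ), md f (hom (ga H α)) r' N))
    {p n : ℕ} {τ : ℝ} (hτ : 0 < τ) (hτX : 2 * τ ≤ 2 ^ p / 2) {g₀ : ℝ → ℝ} (hg₀ : Continuous g₀) (hg00 : ∀ α, 0 ≤ g₀ α)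
    (hpt : ∀ α ∈ Icc (-α₀) α₀, ∀ r ∈ Icc ((2 : ℝ) ^ p / 2) (4 * 2 ^ p), ∀ c : ℝ × ℝ,
      ‖LS f (hom (ga H α)) (wr H α) 1 (2 ^ n) r c‖ ≤ g₀ α ∧ ‖LS f (hom (ga H α)) (fun _ => 1) 2 (2 ^ n) r c‖ ≤ g₀ α)
    {a I : ℝ} (ha : ∫ α in Icc (-α₀) α₀, k0 (1 / sqrt ((2 : ℝ) ^ p * ((2 ^ n : ℕ) : ℝ))) α * g₀ α ≤ a) (hI : WJ J H α₀ p n f ≤ I) :
    ∃ (g : ℝ → ℝ → ℝ) (G : ℝ → ℝ), Blk H f α₀ τ (2 ^ p) n P
      (a ^ (P - q) * (21 ^ q * (2 * (2 * τ) * (C₂ * ((2 ^ n : ℕ) : ℝ) ^ 2 * (((2 ^ n : ℕ) : ℝ) + 1 / τ) * I)))) g G := by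
  obtain ⟨X, hX⟩ : ∃ X : ℝ, X = (2 : ℝ) ^ p := ⟨_, rfl⟩
  have hX1 : 1 ≤ X := by
    rw [hX]
    exact one_le_pow₀ (by norm_num)
  obtain ⟨N, hN⟩ : ∃ N : ℕ, N = 2 ^ n := ⟨_, rfl⟩
  have hN1 : 1 ≤ N := by
    rw [hN]
    exact Nat.one_le_two_pow
  have hNr : (1 : ℝ) ≤ N := by exact_mod_cast hN1
  obtain ⟨κ, hκ⟩ : ∃ κ : ℝ → ℝ, κ = k0 (1 / sqrt ((2 : ℝ) ^ p * ((2 ^ n : ℕ) : ℝ))) := ⟨_, rfl⟩
  have hκc : Continuous κ := by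
    rw [hκ]
    exact o3_k0_cont (beta_pos75 p n)
  have hκ0 : ∀ α, 0 ≤ κ α := by
    rw [hκ]
    exact o3_k0_nonneg (beta_pos75 p n)
  have hκ1 : ∫ α in Icc (-α₀) α₀, κ α ≤ 20 := by
    rw [hκ]
    exact mass20 ha0 ha1 (beta_pos75 p n)
  obtain ⟨D, hD⟩ : ∃ D : ℝ × ℝ → ℝ, D = fun z => md f (hom (ga H z.1)) z.2 N := ⟨_, rfl⟩
  have hDc : Continuous D := by
    rw [hD]
    exact hd.cont f (fun α => hom (ga H α)) hjc N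
  have hD0 : ∀ z, 0 ≤ D z := by
    rw [hD]
    exact fun z => hd.nonneg _ _ _ _
  obtain ⟨A, hA⟩ : ∃ A : ℝ, A = C₂ * (N : ℝ) ^ 2 * (N + 1 / τ) := ⟨_, rfl⟩
  have hA0 : 0 < A := by
    rw [hA]
    positivity
  have hI' : ∫ α in Icc (-α₀) α₀, κ α * ∫ r in Icc (X / 4) (8 * X), D (α, r) ≤ I := by
    refine le_trans (le_of_eq ?_) hI
    unfold WJ
    rw [hκ, hD, hX, hN]
    refine integral_congr_ae (Eventually.of_forall fun α => ?_)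
    simp only
    rw [hd.eq]
  obtain ⟨b1, b2, b3, b4⟩ := Pool.Agent.Helper60.LM.block_mom (q := q) hq ha0 hκc hκ0 hκ1 hg₀ hg00 hDc hD0 hA0 hX1 (W := 2 * τ) (by linarith) (by rw [hX]; exact hτX) hI'
  have hWc : ∀ R : ℝ, Continuous fun α : ℝ => ∫ r in Icc (R - 2 * τ) (R + 2 * τ), D (α, r) := fun R =>
    continuous_parametric_integral_of_continuous (f := fun (α : ℝ) (r : ℝ) => D (α, r)) hDc isCompact_Icc
  have hW0 : ∀ R α : ℝ, 0 ≤ ∫ r in Icc (R - 2 * τ) (R + 2 * τ), D (α, r) := fun R α => integral_nonneg fun r => hD0 _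
  have hq0 : (0 : ℝ) ≤ 1 / (q : ℝ) := by positivity
  refine ⟨fun R α => min ((A * ∫ r in Icc (R - 2 * τ) (R + 2 * τ), D (α, r)) ^ (1 / (q : ℝ))) (g₀ α), GB κ g₀ D α₀ A (2 * τ) q, ⟨?_, ?_, ?_, b1, b2, ?_⟩⟩
  · intro R
    have h1 : Continuous fun α : ℝ => min ((A * ∫ r in Icc (R - 2 * τ) (R + 2 * τ), D (α, r)) ^ (1 / (q : ℝ))) (g₀ α) :=
      ((continuous_const.mul (hWc R)).rpow_const fun _ => Or.inr hq0).min hg₀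
    exact h1.continuousOn.integrableOn_compact isCompact_Icc
  · intro R α hα r hr hrR c
    have h1 := hpt α hα r hr c
    have h2 := hwin α hα N hN1 τ hτ R r hrR c
    rw [hN] at h2
    have e1 : (∫ r in Icc (R - 2 * τ) (R + 2 * τ), D (α, r)) = ∫ r' in Icc (R - 2 * τ) (R + 2 * τ), md f (hom (ga H α)) r' (2 ^ n) := by
      rw [hD, hN]
    rw [e1, hA, hN]
    exact ⟨le_min (root_le hq (norm_nonneg _) h2.1) h1.1, le_min (root_le hq (norm_nonneg _) h2.2) h1.2⟩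
  · intro R
    unfold GB
    rw [hκ]
  · have ha' : ∀ R, GB κ g₀ D α₀ A (2 * τ) q R ≤ a := fun R => by
      refine (b3 R).trans ?_
      rw [hκ]
      exact ha
    have h1 : ∀ R, GB κ g₀ D α₀ A (2 * τ) q R ^ P ≤ a ^ (P - q) * GB κ g₀ D α₀ A (2 * τ) q R ^ q := by
      intro R
      have e1 : GB κ g₀ D α₀ A (2 * τ) q R ^ P = GB κ g₀ D α₀ A (2 * τ) q R ^ (P - q) * GB κ g₀ D α₀ A (2 * τ) q R ^ q := by
        rw [← pow_add]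
        congr 1
        omega
      rw [e1]
      exact mul_le_mul_of_nonneg_right (pow_le_pow_left₀ (b2 R) (ha' R) _) (pow_nonneg (b2 R) _)
    have ha0' : 0 ≤ a := (b2 0).trans (ha' 0)
    rw [← hX, ← hN, ← hA]
    calc ∫ R in Icc X (2 * X), GB κ g₀ D α₀ A (2 * τ) q R ^ P ≤ ∫ R in Icc X (2 * X), a ^ (P - q) * GB κ g₀ D α₀ A (2 * τ) q R ^ q := by
          refine setIntegral_mono_on ?_ ?_ measurableSet_Icc fun R _ => h1 R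
          · exact (b1.pow P).continuousOn.integrableOn_compact isCompact_Icc
          · exact (continuous_const.mul (b1.pow q)).continuousOn.integrableOn_compact isCompact_Icc
      _ = a ^ (P - q) * ∫ R in Icc X (2 * X), GB κ g₀ D α₀ A (2 * τ) q R ^ q := integral_const_mul _ _
      _ ≤ a ^ (P - q) * (21 ^ q * (2 * (2 * τ) * (A * I))) := mul_le_mul_of_nonneg_left b4 (pow_nonneg ha0' _)

end Pool.Agent.Helper75.LM
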