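import Pool.Agent.Helper75.LM.Nm
import Pool.Agent.Helper64.LM.Dyadic

/-!
# Project LM: one frame, the moment at the worst centre
-/

open MeasureTheory Real Set Filter Topology Metric
open scoped ENNReal NNReal

set_option autoImplicit false

namespace Pool.Agent.Helper75.LM

open Pool.Agent.Helper22.AE
open Pool.Agent.Helper22.AC (cntc ga)
open Pool.Agent.Helper22.OV (o3_k0_cont o3_k0_nonneg cntc_bdd)
open Pool.Agent.Helper92.GC (dt sqa)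
open Pool.Agent.Helper92.LA (lf Fb HL WL fr_bd)
open Pool.Agent.Helper75.TW (TB TB_pos)
open Pool.Agent.Helper75.GD (WJ beta_pos75)
open Pool.Agent.Helper22.LP (Fr fv fk fdet hom LS wr Hf Hf_isSupp nr nr_eq nr_pos)

/-- the trivial bound of the sums -/
private theorem ls_triv75 {M B : ℝ} (hM : 1 ≤ M) {f : Fr} (hf : Fb M f) {h : ℝ × ℝ → ℝ} {w : ℝ × ℝ → ℂ} (hw : WL B w) {i N : ℕ}
    (hi : i ≤ 2) (hN : 1 ≤ N) (r : ℝ) (c : ℝ × ℝ) : ‖LS f h w i N r c‖ ≤ 25 * (2 * M ^ 2) ^ 2 * B * (N : ℝ) ^ 2 := by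
  classical
  have hB : 0 ≤ B := (norm_nonneg _).trans (hw.bdd (0, 0))
  have hNr : (1 : ℝ) ≤ N := by exact_mod_cast hN
  have hM2 : 1 ≤ 2 * M ^ 2 := by nlinarith
  have hterm : ∀ k ∈ sqa N, ‖(((N : ℝ) / nr (fk f k) : ℝ) : ℂ) ^ i * w (fk f k) * ee (r * h (fk f k) + dt k c)‖ ≤ (2 * M ^ 2) ^ 2 * B := by
    intro k hk
    rw [norm_mul, norm_mul, norm_pow, ee_norm, mul_one, Complex.norm_real, Real.norm_eq_abs]
    obtain ⟨⟨a, b⟩, c', d⟩ := f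
    obtain ⟨h1, -, -⟩ := fr_bd hM hf hk
    have h2 : max |lf a c' k| |lf b d k| ≤ nr (fk ((a, b), c', d) k) := by
      rw [nr_eq]
      have e1 : (fk ((a, b), c', d) k).1 = lf a c' k := by
        unfold fk fv lf
        simp only
        ring
      have e2 : (fk ((a, b), c', d) k).2 = lf b d k := by
        unfold fk fv lf
        simp only
        ring
      rw [e1, e2]
      refine max_le ?_ ?_
      · apply Real.le_sqrt_of_sq_le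
        rw [sq_abs]
        linarith [sq_nonneg (lf b d k)]
      · apply Real.le_sqrt_of_sq_le
        rw [sq_abs]
        linarith [sq_nonneg (lf a c' k)]
    have h3 : (N : ℝ) ≤ 2 * M ^ 2 * nr (fk ((a, b), c', d) k) :=
      h1.trans (mul_le_mul_of_nonneg_left h2 (by positivity))
    have h4 : 0 < nr (fk ((a, b), c', d) k) := by
      by_contra hn
      push Not at hn
      have := mul_nonpos_of_nonneg_of_nonpos (show 0 ≤ 2 * M ^ 2 by positivity) hn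
      linarith
    have h5 : |(N : ℝ) / nr (fk ((a, b), c', d) k)| ≤ 2 * M ^ 2 := by
      rw [abs_of_nonneg (by positivity), div_le_iff₀ h4]
      exact h3
    have h6 : |(N : ℝ) / nr (fk ((a, b), c', d) k)| ^ i ≤ (2 * M ^ 2) ^ 2 :=
      (pow_le_pow_left₀ (abs_nonneg _) h5 i).trans (pow_le_pow_right₀ hM2 hi)
    exact mul_le_mul h6 (hw.bdd _) (norm_nonneg _) (by positivity)
  have hcard : ((sqa N).card : ℝ) ≤ 25 * (N : ℝ) ^ 2 := by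
    have h1 : (sqa N).card ≤ (box (2 * N)).card := Finset.card_le_card (Finset.filter_subset _ _)
    have h2 : (box (2 * N)).card = (4 * N + 1) ^ 2 := by
      unfold box
      rw [Finset.card_product, Int.card_Icc]
      have : (((2 * N : ℕ) : ℤ) + 1 - -((2 * N : ℕ) : ℤ)).toNat = 4 * N + 1 := by omega
      rw [this]
      ring
    rw [h2] at h1
    have h3 : ((sqa N).card : ℝ) ≤ (4 * (N : ℝ) + 1) ^ 2 := by exact_mod_cast h1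
    refine h3.trans ?_
    nlinarith
  unfold LS
  refine (norm_sum_le _ _).trans ((Finset.sum_le_sum hterm).trans ?_)
  rw [Finset.sum_const, nsmul_eq_mul]
  have := mul_le_mul_of_nonneg_right hcard (show 0 ≤ (2 * M ^ 2) ^ 2 * B by positivity)
  linarith

private theorem fb75 {f : Fr} (hf : fdet f ≠ 0) : ∃ M : ℝ, 1 ≤ M ∧ Fb M f := by
  have h0 : 0 < |fdet f| := abs_pos.2 hf
  refine ⟨1 + |f.1.1| + |f.1.2| + |f.2.1| + |f.2.2| + 1 / |fdet f|, ?_, ?_⟩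
  · have := abs_nonneg f.1.1
    have := abs_nonneg f.1.2
    have := abs_nonneg f.2.1
    have := abs_nonneg f.2.2
    have : 0 ≤ 1 / |fdet f| := by positivity
    linarith
  · have h1 := abs_nonneg f.1.1
    have h2 := abs_nonneg f.1.2
    have h3 := abs_nonneg f.2.1
    have h4 := abs_nonneg f.2.2
    have h5 : 0 ≤ 1 / |fdet f| := by positivity
    refine ⟨by linarith, by linarith, by linarith, by linarith, ?_⟩
    have h6 : 1 = 1 / |fdet f| * |fdet f| := by field_simp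
    calc (1 : ℝ) = 1 / |fdet f| * |fdet f| := h6
      _ ≤ _ := mul_le_mul_of_nonneg_right (by linarith) h0.le

/-- the block of a moment, with the target -/
private theorem blk_mid {md J : Fr → (ℝ × ℝ → ℝ) → ℝ → ℕ → ℝ} {q P : ℕ} (hd : Md md J q) (hq : 2 ≤ q) (hqP : q ≤ P) {H : ℝ → ℝ}
    (hjc : Continuous fun q : ℝ × (ℝ × ℝ) => hom (ga H q.1) q.2) {α₀ : ℝ} (ha0 : 0 < α₀) (ha1 : α₀ < π / 2) {f : Fr} {M B : ℝ} (hM : 1 ≤ M) (hfb : Fb M f)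
    (hfam : ∀ α ∈ Icc (-α₀) α₀, HL B (hom (ga H α)) ∧ WL B (wr H α) ∧ WL B (fun _ => 1)) {θ e κ C₁ : ℝ} (he : 0 < e) (hκ : 0 < κ) (hC₁ : 0 ≤ C₁) :
    ∃ K : ℝ, 0 ≤ K ∧ ∀ p n : ℕ, ((2 : ℝ) ^ p) ^ (2 * θ - 1) ≤ (2 : ℝ) ^ n → (2 : ℝ) ^ n ≤ ((2 : ℝ) ^ p) ^ (1 / 2 + e) →
      2 * (κ * ((2 : ℝ) ^ p) ^ (-(1 / 2) : ℝ)) ≤ 2 ^ p / 2 → WJ J H α₀ p n f ≤ C₁ * (((2 : ℝ) ^ p) ^ e * TB q θ ((2 : ℝ) ^ p) (2 ^ n)) →
      ∃ (g : ℝ → ℝ → ℝ) (G : ℝ → ℝ) (Y : ℝ), Blk H f α₀ (κ * ((2 : ℝ) ^ p) ^ (-(1 / 2) : ℝ)) (2 ^ p) n P Y g G ∧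
        (((2 : ℝ) ^ p) ^ (1 / 2 : ℝ) * ((2 ^ n : ℕ) : ℝ) ^ (-(3 / 2) : ℝ)) ^ P * Y ≤ K * ((2 : ℝ) ^ p) ^ ((P : ℝ) * θ - (2 * θ - 1) + P * e) := by
  obtain ⟨C₂, hC₂, hwin⟩ := hd.win M B hM
  obtain ⟨C₅, hC₅, hglob⟩ := hd.glob M B hM
  obtain ⟨D, hD⟩ : ∃ D : ℝ, D = C₁ * C₅ + 1 := ⟨_, rfl⟩
  have hD1 : 1 ≤ D := by
    have : 0 ≤ C₁ * C₅ := by positivity
    rw [hD]
    linarith
  have hD0 : 0 < D := by linarith
  refine ⟨(21 * D) ^ (P - q) * (21 ^ q * (4 * (κ + 1) * C₂) * C₁), by positivity, fun p n q1 q2 hτX hW => ?_⟩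
  obtain ⟨X, hX⟩ : ∃ X : ℝ, X = (2 : ℝ) ^ p := ⟨_, rfl⟩
  obtain ⟨N, hN⟩ : ∃ N : ℝ, N = (2 : ℝ) ^ n := ⟨_, rfl⟩
  have hX1 : 1 ≤ X := by
    rw [hX]
    exact one_le_pow₀ (by norm_num)
  have hN1 : 1 ≤ N := by
    rw [hN]
    exact one_le_pow₀ (by norm_num)
  have hX0 : 0 < X := by linarith
  have hN0 : 0 < N := by linarith
  have hNr : ((2 ^ n : ℕ) : ℝ) = N := by
    rw [hN]
    push_cast
    rfl
  have hτ : 0 < κ * ((2 : ℝ) ^ p) ^ (-(1 / 2) : ℝ) := by positivity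
  have hq1 : 1 ≤ q := by omega
  have hT := (TB_pos (q := q) (θ := θ) hX0 hN0).le
  -- the continuous majorant
  obtain ⟨Jα, hJα⟩ : ∃ Jα : ℝ → ℝ, Jα = fun α => C₅ * N ^ 3 * J f (hom (ga H α)) X (2 ^ n) := ⟨_, rfl⟩
  have hJc : Continuous fun α : ℝ => J f (hom (ga H α)) X (2 ^ n) := by
    simp only [hd.eq]
    exact continuous_parametric_integral_of_continuous (f := fun (α : ℝ) (r : ℝ) => md f (hom (ga H α)) r (2 ^ n))
      (hd.cont f (fun α => hom (ga H α)) hjc (2 ^ n)) isCompact_Icc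
  have hJ0 : ∀ α, 0 ≤ J f (hom (ga H α)) X (2 ^ n) := fun α => by
    rw [hd.eq]
    exact integral_nonneg fun r => hd.nonneg _ _ _ _
  have hJαc : Continuous Jα := by
    rw [hJα]
    exact continuous_const.mul hJc
  have hJα0 : ∀ α, 0 ≤ Jα α := fun α => by
    rw [hJα]
    exact mul_nonneg (by positivity) (hJ0 α)
  have hκc := o3_k0_cont (beta_pos75 p n)
  have hκ0 := o3_k0_nonneg (beta_pos75 p n)
  have hint : ∫ α in Icc (-α₀) α₀, k0 (1 / sqrt ((2 : ℝ) ^ p * ((2 ^ n : ℕ) : ℝ))) α * Jα α ≤ (D * (X ^ (θ - 1 / 2 + e) * N ^ (3 / 2 : ℝ))) ^ q := by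
    have h1 : ∫ α in Icc (-α₀) α₀, k0 (1 / sqrt ((2 : ℝ) ^ p * ((2 ^ n : ℕ) : ℝ))) α * Jα α = C₅ * N ^ 3 * WJ J H α₀ p n f := by
      unfold WJ
      rw [← integral_const_mul, hJα, hX]
      refine integral_congr_ae (Eventually.of_forall fun α => ?_)
      simp only
      ring
    rw [h1]
    rw [← hX, ← hN] at hW
    refine (mul_le_mul_of_nonneg_left hW (by positivity)).trans (tb_le hq1 hX1 hN0 he.le hC₁ hC₅.le hD1 ?_)
    rw [hD]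
    linarith
  have ha := holdq hq1 hκc hκ0 hJαc hJα0 (mass20 ha0 ha1 (beta_pos75 p n)) (l := D * (X ^ (θ - 1 / 2 + e) * N ^ (3 / 2 : ℝ))) (by positivity) hint
  obtain ⟨g, G, hB⟩ := blk_of hd hq1 hqP hjc ha0 ha1 (f := f) hC₂
    (fun α hα N hN τ hτ r₀ r hr c => by
      obtain ⟨h1, h2, h3⟩ := hfam α hα
      exact ⟨hwin f hfb _ h1 _ h2 1 (by norm_num) N hN τ hτ r₀ r hr c, hwin f hfb _ h1 _ h3 2 (by norm_num) N hN τ hτ r₀ r hr c⟩)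
    (p := p) (n := n) hτ hτX (g₀ := fun α => Jα α ^ (1 / (q : ℝ))) (hJαc.rpow_const fun _ => Or.inr (by positivity))
    (fun α => rpow_nonneg (hJα0 α) _)
    (fun α hα r hr c => by
      obtain ⟨h1, h2, h3⟩ := hfam α hα
      rw [← hX] at hr
      have g1 := hglob f hfb _ h1 _ h2 1 (by norm_num) (2 ^ n) Nat.one_le_two_pow X hX1 r hr c
      have g2 := hglob f hfb _ h1 _ h3 2 (by norm_num) (2 ^ n) Nat.one_le_two_pow X hX1 r hr c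
      rw [hNr] at g1 g2
      simp only [hJα]
      exact ⟨root_le hq1 (norm_nonneg _) g1, root_le hq1 (norm_nonneg _) g2⟩)
    ha hW
  refine ⟨g, G, _, hB, ?_⟩
  rw [← hX, hNr, ← hN]
  have h1 := win_num (X := X) (N := N) (e := e) (κ := κ) (C := C₂) (I := C₁ * (X ^ e * TB q θ X N)) hX1 hN1 (by rw [hX, hN]; exact q2) he hκ hC₂.le (by positivity) q
  have h2 := num_mid (q := q) (P := P) (θ := θ) (e := e) hq hqP hX1 hN1 (by rw [hX, hN]; exact q1) he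
  have hbb : 0 ≤ X ^ (1 / 2 : ℝ) * N ^ (-(3 / 2) : ℝ) := by positivity
  calc (X ^ (1 / 2 : ℝ) * N ^ (-(3 / 2) : ℝ)) ^ P * ((21 * (D * (X ^ (θ - 1 / 2 + e) * N ^ (3 / 2 : ℝ)))) ^ (P - q) *
        (21 ^ q * (2 * (2 * (κ * X ^ (-(1 / 2) : ℝ))) * (C₂ * N ^ 2 * (N + 1 / (κ * X ^ (-(1 / 2) : ℝ))) * (C₁ * (X ^ e * TB q θ X N))))))
      ≤ (X ^ (1 / 2 : ℝ) * N ^ (-(3 / 2) : ℝ)) ^ P * ((21 * (D * (X ^ (θ - 1 / 2 + e) * N ^ (3 / 2 : ℝ)))) ^ (P - q) *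
        ((21 ^ q * (4 * (κ + 1) * C₂)) * (N ^ 2 * X ^ e * (C₁ * (X ^ e * TB q θ X N))))) :=
        mul_le_mul_of_nonneg_left (mul_le_mul_of_nonneg_left h1 (by positivity)) (by positivity)
    _ = (21 * D) ^ (P - q) * (21 ^ q * (4 * (κ + 1) * C₂) * C₁) * ((X ^ (1 / 2 : ℝ) * N ^ (-(3 / 2) : ℝ)) ^ P *
        ((X ^ (θ - 1 / 2 + e) * N ^ (3 / 2 : ℝ)) ^ (P - q) * (N ^ 2 * X ^ e * (X ^ e * TB q θ X N)))) := by
        rw [← mul_assoc 21 D, mul_pow (21 * D)]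
        ring
    _ ≤ _ := mul_le_mul_of_nonneg_left h2 (by positivity)

/-- the small block -/
private theorem blk_small {md J : Fr → (ℝ × ℝ → ℝ) → ℝ → ℕ → ℝ} {q P : ℕ} (hd : Md md J q) (hq : 4 ≤ q) (hP : P + 4 = 2 * q) {H : ℝ → ℝ}
    (hjc : Continuous fun q : ℝ × (ℝ × ℝ) => hom (ga H q.1) q.2) {α₀ : ℝ} (ha0 : 0 < α₀) (ha1 : α₀ < π / 2) {f : Fr} {M B : ℝ} (hM : 1 ≤ M) (hfb : Fb M f)
    (hfam : ∀ α ∈ Icc (-α₀) α₀, HL B (hom (ga H α)) ∧ WL B (wr H α) ∧ WL B (fun _ => 1)) {θ e κ C₁ : ℝ} (he : 0 < e) (hκ : 0 < κ) (hC₁ : 0 ≤ C₁) :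
    ∃ K : ℝ, 0 ≤ K ∧ ∀ p n : ℕ, (2 : ℝ) ^ n ≤ ((2 : ℝ) ^ p) ^ (1 / 2 + e) →
      2 * (κ * ((2 : ℝ) ^ p) ^ (-(1 / 2) : ℝ)) ≤ 2 ^ p / 2 → WJ J H α₀ p n f ≤ C₁ * (((2 : ℝ) ^ p) ^ e * SB P q θ ((2 : ℝ) ^ p) (2 ^ n)) →
      ∃ (g : ℝ → ℝ → ℝ) (G : ℝ → ℝ) (Y : ℝ), Blk H f α₀ (κ * ((2 : ℝ) ^ p) ^ (-(1 / 2) : ℝ)) (2 ^ p) n P Y g G ∧
        (((2 : ℝ) ^ p) ^ (1 / 2 : ℝ) * ((2 ^ n : ℕ) : ℝ) ^ (-(3 / 2) : ℝ)) ^ P * Y ≤ K * ((2 : ℝ) ^ p) ^ ((P : ℝ) * θ - (2 * θ - 1) + P * e) := by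
  obtain ⟨C₂, hC₂, hwin⟩ := hd.win M B hM
  obtain ⟨T, hT⟩ : ∃ T : ℝ, T = 25 * (2 * M ^ 2) ^ 2 * |B| := ⟨_, rfl⟩
  have hT0 : 0 ≤ T := by
    rw [hT]
    positivity
  have hq1 : 1 ≤ q := by omega
  have hqP : q ≤ P := by omega
  refine ⟨(20 * T) ^ (P - q) * (21 ^ q * (4 * (κ + 1) * C₂) * C₁), by positivity, fun p n q2 hτX hW => ?_⟩
  obtain ⟨X, hX⟩ : ∃ X : ℝ, X = (2 : ℝ) ^ p := ⟨_, rfl⟩
  obtain ⟨N, hN⟩ : ∃ N : ℝ, N = (2 : ℝ) ^ n := ⟨_, rfl⟩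
  have hX1 : 1 ≤ X := by
    rw [hX]
    exact one_le_pow₀ (by norm_num)
  have hN1 : 1 ≤ N := by
    rw [hN]
    exact one_le_pow₀ (by norm_num)
  have hX0 : 0 < X := by linarith
  have hN0 : 0 < N := by linarith
  have hNr : ((2 ^ n : ℕ) : ℝ) = N := by
    rw [hN]
    push_cast
    rfl
  have hτ : 0 < κ * ((2 : ℝ) ^ p) ^ (-(1 / 2) : ℝ) := by positivity
  have hS : 0 ≤ SB P q θ X N := by
    unfold SB
    positivity
  have hκ0 := o3_k0_nonneg (beta_pos75 p n)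
  have ha : ∫ α in Icc (-α₀) α₀, k0 (1 / sqrt ((2 : ℝ) ^ p * ((2 ^ n : ℕ) : ℝ))) α * (T * N ^ 2) ≤ 20 * (T * N ^ 2) := by
    rw [integral_mul_const]
    exact mul_le_mul_of_nonneg_right (mass20 ha0 ha1 (beta_pos75 p n)) (by positivity)
  obtain ⟨g, G, hB⟩ := blk_of hd hq1 hqP hjc ha0 ha1 (f := f) hC₂
    (fun α hα N hN τ hτ r₀ r hr c => by
      obtain ⟨h1, h2, h3⟩ := hfam α hα
      exact ⟨hwin f hfb _ h1 _ h2 1 (by norm_num) N hN τ hτ r₀ r hr c, hwin f hfb _ h1 _ h3 2 (by norm_num) N hN τ hτ r₀ r hr c⟩)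
    (p := p) (n := n) hτ hτX (g₀ := fun _ => T * N ^ 2) continuous_const (fun _ => by positivity)
    (fun α hα r hr c => by
      obtain ⟨h1, h2, h3⟩ := hfam α hα
      have hB0 : 0 ≤ B := (norm_nonneg _).trans (h3.bdd (0, 0))
      have g1 := ls_triv75 hM hfb h2 (h := hom (ga H α)) (i := 1) (by norm_num) (N := 2 ^ n) Nat.one_le_two_pow r c
      have g2 := ls_triv75 hM hfb h3 (h := hom (ga H α)) (i := 2) (by norm_num) (N := 2 ^ n) Nat.one_le_two_pow r c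
      rw [hNr] at g1 g2
      rw [hT, abs_of_nonneg hB0]
      exact ⟨g1, g2⟩)
    ha hW
  refine ⟨g, G, _, hB, ?_⟩
  rw [← hX, hNr, ← hN]
  have h1 := win_num (X := X) (N := N) (e := e) (κ := κ) (C := C₂) (I := C₁ * (X ^ e * SB P q θ X N)) hX1 hN1 (by rw [hX, hN]; exact q2) he hκ hC₂.le (by positivity) q
  have h2 := num_small (q := q) (P := P) (θ := θ) (e := e) hq hP hX1 hN1 he
  have hbb : 0 ≤ X ^ (1 / 2 : ℝ) * N ^ (-(3 / 2) : ℝ) := by positivity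
  calc (X ^ (1 / 2 : ℝ) * N ^ (-(3 / 2) : ℝ)) ^ P * ((20 * (T * N ^ 2)) ^ (P - q) *
        (21 ^ q * (2 * (2 * (κ * X ^ (-(1 / 2) : ℝ))) * (C₂ * N ^ 2 * (N + 1 / (κ * X ^ (-(1 / 2) : ℝ))) * (C₁ * (X ^ e * SB P q θ X N))))))
      ≤ (X ^ (1 / 2 : ℝ) * N ^ (-(3 / 2) : ℝ)) ^ P * ((20 * (T * N ^ 2)) ^ (P - q) *
        ((21 ^ q * (4 * (κ + 1) * C₂)) * (N ^ 2 * X ^ e * (C₁ * (X ^ e * SB P q θ X N))))) :=
        mul_le_mul_of_nonneg_left (mul_le_mul_of_nonneg_left h1 (by positivity)) (by positivity)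
    _ = (20 * T) ^ (P - q) * (21 ^ q * (4 * (κ + 1) * C₂) * C₁) * ((X ^ (1 / 2 : ℝ) * N ^ (-(3 / 2) : ℝ)) ^ P *
        ((N ^ 2) ^ (P - q) * (N ^ 2 * X ^ e * (X ^ e * SB P q θ X N)))) := by
        rw [← mul_assoc 20 T, mul_pow (20 * T)]
        ring
    _ ≤ _ := mul_le_mul_of_nonneg_left h2 (by positivity)

/-- one frame, from the bounds of the moments -/
theorem frame_mom {H : ℝ → ℝ} (hH : IsSupp H) {α₀ B : ℝ} (ha0 : 0 < α₀) (ha1 : α₀ < π / 2)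
    (hjc : Continuous fun q : ℝ × (ℝ × ℝ) => hom (ga H q.1) q.2)
    (hfam : ∀ α ∈ Icc (-α₀) α₀, HL B (hom (ga H α)) ∧ WL B (wr H α) ∧ WL B (fun _ => 1)) {f : Fr} (hf : fdet f ≠ 0)
    {md md' J J' : Fr → (ℝ × ℝ → ℝ) → ℝ → ℕ → ℝ} {q q' P : ℕ} (hd : Md md J q) (hd' : Md md' J' q') (hq : 4 ≤ q) (hq' : 2 ≤ q') (hP : P + 4 = 2 * q) (hP' : q' ≤ P)
    {θ ν₂ : ℝ} (hθ : 1 / 2 < θ) (hPθ : (P : ℝ) * (θ - 1 / 2) = 2 * θ) {e : ℝ} (he : 0 < e) (he2 : e < 1 / 2) {C₁ : ℝ} (hC₁ : 0 ≤ C₁)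
    (hs : ∀ p n : ℕ, n ≤ p → (2 : ℝ) ^ n ≤ ((2 : ℝ) ^ p) ^ (2 * θ - 1) → WJ J H α₀ p n f ≤ C₁ * (((2 : ℝ) ^ p) ^ e * SB P q θ ((2 : ℝ) ^ p) (2 ^ n)))
    (hm : ∀ p n : ℕ, n ≤ p → ((2 : ℝ) ^ p) ^ (2 * θ - 1) ≤ (2 : ℝ) ^ n → (2 : ℝ) ^ n ≤ ((2 : ℝ) ^ p) ^ ν₂ →
      WJ J H α₀ p n f ≤ C₁ * (((2 : ℝ) ^ p) ^ e * TB q θ ((2 : ℝ) ^ p) (2 ^ n)))
    (hl : ∀ p n : ℕ, n ≤ p → ((2 : ℝ) ^ p) ^ (2 * θ - 1) ≤ (2 : ℝ) ^ n → ((2 : ℝ) ^ p) ^ ν₂ ≤ (2 : ℝ) ^ n → (2 : ℝ) ^ n ≤ ((2 : ℝ) ^ p) ^ (1 / 2 + e) →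
      WJ J' H α₀ p n f ≤ C₁ * (((2 : ℝ) ^ p) ^ e * TB q' θ ((2 : ℝ) ^ p) (2 ^ n))) :
    ∃ C : ℝ, ∀ X : ℝ, 1 ≤ X → ∫⁻ R in Icc X (2 * X), ⨆ c : ℝ × ℝ, ENNReal.ofReal (|cntc (Hf H f) c R - area (Hf H f) * R ^ 2| ^ P) ≤
      ENNReal.ofReal (C * X ^ ((P : ℝ) * θ - (2 * θ - 1) + 3 * P * e)) := by
  have hP4 : 4 ≤ P := by omega
  have hPr : (4 : ℝ) ≤ P := by exact_mod_cast hP4
  have hqP : q ≤ P := by omega
  obtain ⟨M, hM, hfb⟩ := fb75 hf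
  obtain ⟨C₃, R₁, κ, hC₃, hR₁, hκ, hlp⟩ := Pool.Agent.Helper60.LQ.lp_two hH hf (τ := 1 / 2) (e2 := e) (by norm_num) (by norm_num) he ha0 ha1
  obtain ⟨K₁, hK₁, hb1⟩ := blk_small hd hq hP hjc ha0 ha1 hM hfb hfam (θ := θ) (e := e) (κ := κ) (C₁ := C₁) he hκ hC₁
  obtain ⟨K₂, hK₂, hb2⟩ := blk_mid hd (by omega) hqP hjc ha0 ha1 hM hfb hfam (θ := θ) (e := e) (κ := κ) (C₁ := C₁) he hκ hC₁
  obtain ⟨K₃, hK₃, hb3⟩ := blk_mid hd' hq' hP' hjc ha0 ha1 hM hfb hfam (θ := θ) (e := e) (κ := κ) (C₁ := C₁) he hκ hC₁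
  obtain ⟨R₂, hR₂⟩ : ∃ R₂ : ℝ, R₂ = R₁ + 4 * κ := ⟨_, rfl⟩
  obtain ⟨C₄, hC₄⟩ := cntc_bdd (Hf_isSupp hH hf) (2 * R₂)
  have hA1 : (P : ℝ) * θ - (2 * θ - 1) = 1 + (P : ℝ) / 2 := by linarith
  have hPe : 0 ≤ (P : ℝ) * e := by positivity
  obtain ⟨K, hK⟩ : ∃ K : ℝ, K = K₁ + K₂ + K₃ := ⟨_, rfl⟩
  have hK0 : 0 ≤ K := by
    rw [hK]
    positivity
  refine dyadic (by rw [hA1]; positivity)
    ⟨|C₄| ^ P + C₃ ^ P * ((2 / e + 2) ^ P * (2 ^ P * (1 + (2 / e + 2) * K))), fun p => ?_⟩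
  obtain ⟨X, hX⟩ : ∃ X : ℝ, X = (2 : ℝ) ^ p := ⟨_, rfl⟩
  have hX1 : 1 ≤ X := by
    rw [hX]
    exact one_le_pow₀ (by norm_num)
  have hX0 : 0 < X := by linarith
  have hXA : X ≤ X ^ ((P : ℝ) * θ - (2 * θ - 1) + 3 * P * e) := by
    calc X = X ^ (1 : ℝ) := (rpow_one X).symm
      _ ≤ _ := rpow_le_rpow_of_exponent_le hX1 (by rw [hA1]; linarith)
  have hvol : volume (Icc X (2 * X)) = ENNReal.ofReal X := by
    rw [Real.volume_Icc]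
    congr 1
    ring
  have hbig0 : 0 ≤ C₃ ^ P * ((2 / e + 2) ^ P * (2 ^ P * (1 + (2 / e + 2) * K))) := by positivity
  rw [← hX]
  rcases lt_or_ge X R₂ with hsm | hlg
  · -- small X
    have h1 : ∀ R ∈ Icc X (2 * X), (⨆ c : ℝ × ℝ, ENNReal.ofReal (|cntc (Hf H f) c R - area (Hf H f) * R ^ 2| ^ P)) ≤ ENNReal.ofReal (|C₄| ^ P) := by
      intro R hR
      refine iSup_le fun c => ENNReal.ofReal_le_ofReal ?_
      exact pow_le_pow_left₀ (abs_nonneg _) ((hC₄ R (hX1.trans hR.1) (hR.2.trans (by linarith)) c).trans (le_abs_self _)) P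
    refine (setLIntegral_mono' measurableSet_Icc h1).trans ?_
    rw [setLIntegral_const, hvol, ← ENNReal.ofReal_mul (by positivity)]
    refine ENNReal.ofReal_le_ofReal ?_
    have h2 : 0 ≤ |C₄| ^ P := by positivity
    calc |C₄| ^ P * X ≤ |C₄| ^ P * X ^ ((P : ℝ) * θ - (2 * θ - 1) + 3 * P * e) := mul_le_mul_of_nonneg_left hXA h2
      _ ≤ _ := mul_le_mul_of_nonneg_right (by linarith) (by positivity)
  -- large X
  have hXR1 : R₁ ≤ X := by linarith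
  have hτX : 2 * (κ * X ^ (-(1 / 2) : ℝ)) ≤ X / 2 := by
    have h1 : X ^ (-(1 / 2) : ℝ) ≤ 1 := by
      calc X ^ (-(1 / 2) : ℝ) ≤ X ^ (0 : ℝ) := rpow_le_rpow_of_exponent_le hX1 (by norm_num)
        _ = 1 := rpow_zero X
    have h2 : κ * X ^ (-(1 / 2) : ℝ) ≤ κ * 1 := mul_le_mul_of_nonneg_left h1 hκ.le
    linarith
  obtain ⟨n1, hn1⟩ : ∃ n1 : ℕ, n1 = ⌈(1 / 2 + e) * p⌉₊ := ⟨_, rfl⟩
  have hXp : ∀ y : ℝ, X ^ y = (2 : ℝ) ^ (p * y) := by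
    intro y
    rw [hX, ← rpow_natCast 2 p, ← rpow_mul (by norm_num)]
  have hn1a : X ^ (1 / 2 + e) ≤ 2 ^ n1 := by
    rw [hXp, ← rpow_natCast]
    refine rpow_le_rpow_of_exponent_le (by norm_num) ?_
    rw [hn1, mul_comm]
    exact Nat.le_ceil _
  have hn1b : ∀ n < n1, (n : ℝ) < (1 / 2 + e) * p := by
    intro n hn
    rw [hn1] at hn
    exact Nat.lt_ceil.1 hn
  have hnp : ∀ n < n1, n ≤ p := by
    intro n hn
    have h1 := hn1b n hn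
    have h2 : (1 / 2 + e) * (p : ℝ) ≤ 1 * p := mul_le_mul_of_nonneg_right (by linarith) (Nat.cast_nonneg p)
    have h3 : (n : ℝ) < p := by linarith
    exact_mod_cast h3.le
  have hnX : ∀ n < n1, (2 : ℝ) ^ n ≤ X ^ (1 / 2 + e) := by
    intro n hn
    rw [hXp, ← rpow_natCast]
    refine rpow_le_rpow_of_exponent_le (by norm_num) ?_
    have h1 := hn1b n hn
    linarith
  have hn1c : (n1 : ℝ) + 1 ≤ (2 / e + 2) * X ^ e := by
    have h1 : (n1 : ℝ) < (1 / 2 + e) * p + 1 := by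
      rw [hn1]
      exact Nat.ceil_lt_add_one (mul_nonneg (by linarith) (Nat.cast_nonneg p))
    have h2 : log X ≤ X ^ e / e := log_le_rpow_div hX0.le he
    have h3 : (1 : ℝ) / 2 < log 2 := by
      have := log_two_gt_d9
      linarith
    have h4 : log X = p * log 2 := by
      rw [hX, log_pow]
    have h5 : (p : ℝ) * (1 / 2) ≤ X ^ e / e := by
      have : (p : ℝ) * (1 / 2) ≤ p * log 2 := mul_le_mul_of_nonneg_left h3.le (Nat.cast_nonneg p)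
      linarith
    have h6 : 1 ≤ X ^ e := one_le_rpow hX1 he.le
    have h7 : (1 / 2 + e) * (p : ℝ) ≤ 1 * p := mul_le_mul_of_nonneg_right (by linarith) (Nat.cast_nonneg p)
    have h8 : 2 / e * X ^ e = 2 * (X ^ e / e) := by ring
    linarith
  have hblk : ∀ n : ℕ, ∃ (g : ℝ → ℝ → ℝ) (G : ℝ → ℝ) (Y : ℝ), n < n1 → Blk H f α₀ (κ * X ^ (-(1 / 2) : ℝ)) X n P Y g G ∧
      (X ^ (1 / 2 : ℝ) * ((2 ^ n : ℕ) : ℝ) ^ (-(3 / 2) : ℝ)) ^ P * Y ≤ K * X ^ ((P : ℝ) * θ - (2 * θ - 1) + P * e) := by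
    intro n
    by_cases hn : n < n1
    · have hXE : 0 ≤ X ^ ((P : ℝ) * θ - (2 * θ - 1) + P * e) := by positivity
      rw [hX] at hτX hXE ⊢
      have hnX' := hnX n hn
      rw [hX] at hnX'
      by_cases h1 : (2 : ℝ) ^ n ≤ ((2 : ℝ) ^ p) ^ (2 * θ - 1)
      · obtain ⟨g, G, Y, h2, h3⟩ := hb1 p n hnX' hτX (hs p n (hnp n hn) h1)
        exact ⟨g, G, Y, fun _ => ⟨h2, h3.trans (mul_le_mul_of_nonneg_right (by rw [hK]; linarith) hXE)⟩⟩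
      · have h1' := (not_le.1 h1).le
        by_cases h4 : (2 : ℝ) ^ n ≤ ((2 : ℝ) ^ p) ^ ν₂
        · obtain ⟨g, G, Y, h2, h3⟩ := hb2 p n h1' hnX' hτX (hm p n (hnp n hn) h1' h4)
          exact ⟨g, G, Y, fun _ => ⟨h2, h3.trans (mul_le_mul_of_nonneg_right (by rw [hK]; linarith) hXE)⟩⟩
        · obtain ⟨g, G, Y, h2, h3⟩ := hb3 p n h1' hnX' hτX (hl p n (hnp n hn) h1' (not_le.1 h4).le hnX')
          exact ⟨g, G, Y, fun _ => ⟨h2, h3.trans (mul_le_mul_of_nonneg_right (by rw [hK]; linarith) hXE)⟩⟩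
    · exact ⟨fun _ _ => 0, fun _ => 0, 0, fun h => absurd h hn⟩
  choose g G Y hB using hblk
  -- the pointwise bound
  obtain ⟨b, hb⟩ : ∃ b : ℕ → ℝ, ∀ n, b n = X ^ (1 / 2 : ℝ) * ((2 ^ n : ℕ) : ℝ) ^ (-(3 / 2) : ℝ) := ⟨_, fun _ => rfl⟩
  have hb0 : ∀ n, 0 ≤ b n := fun n => by
    rw [hb]
    positivity
  have hXh : 1 ≤ X ^ (1 / 2 : ℝ) := one_le_rpow hX1 (by norm_num)
  have hpt : ∀ R ∈ Icc X (2 * X), (⨆ c : ℝ × ℝ, ENNReal.ofReal (|cntc (Hf H f) c R - area (Hf H f) * R ^ 2| ^ P)) ≤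
      ENNReal.ofReal (C₃ ^ P * (((n1 : ℝ) + 1) ^ P * (2 ^ P * ((X ^ (1 / 2 : ℝ)) ^ P + ∑ n ∈ Finset.range n1, (b n * G n R) ^ P)))) := by
    intro R hR
    refine iSup_le fun c => ENNReal.ofReal_le_ofReal ?_
    have h1 := hlp X hXR1 n1 hn1a R hR (fun n => g n R) (fun n hn => (hB n hn).1.int R)
      (fun n hn α hα r hr hrR c => (hB n hn).1.pt R α hα r hr (by
        have hw : 0 ≤ κ * X ^ (-(1 / 2) : ℝ) := by positivity
        rcases hrR with h | h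
        · rw [h, show R + κ * X ^ (-(1 / 2) : ℝ) - R = κ * X ^ (-(1 / 2) : ℝ) by ring, abs_of_nonneg hw]
        · rw [h, show R - κ * X ^ (-(1 / 2) : ℝ) - R = -(κ * X ^ (-(1 / 2) : ℝ)) by ring, abs_neg, abs_of_nonneg hw]) c) c
    have h2 : ∑ n ∈ Finset.range n1, (X ^ (1 / 2 : ℝ) * ((2 ^ n : ℕ) : ℝ) ^ (-(3 / 2) : ℝ) *
          (∫ α in Icc (-α₀) α₀, k0 (1 / sqrt (X * (2 ^ n : ℕ))) α * g n R α) + 1) = ∑ n ∈ Finset.range n1, (b n * |G n R| + 1) := by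
      refine Finset.sum_congr rfl fun n hn => ?_
      have h3 := hB n (Finset.mem_range.1 hn)
      rw [h3.1.eq R, hb, abs_of_nonneg (h3.1.nonneg R)]
    rw [h2, show (1 : ℝ) - 1 / 2 = 1 / 2 by norm_num] at h1
    have h4 := sum_pow_bd P n1 (b := fun n => b n * |G n R|) (fun n => mul_nonneg (hb0 n) (abs_nonneg _)) hXh
    have h5 : ∑ n ∈ Finset.range n1, (b n * |G n R|) ^ P = ∑ n ∈ Finset.range n1, (b n * G n R) ^ P := by
      refine Finset.sum_congr rfl fun n hn => ?_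
      rw [abs_of_nonneg ((hB n (Finset.mem_range.1 hn)).1.nonneg R)]
    rw [h5] at h4
    calc |cntc (Hf H f) c R - area (Hf H f) * R ^ 2| ^ P ≤ (C₃ * (X ^ (1 / 2 : ℝ) + ∑ n ∈ Finset.range n1, (b n * |G n R| + 1))) ^ P :=
          pow_le_pow_left₀ (abs_nonneg _) h1 P
      _ = C₃ ^ P * (X ^ (1 / 2 : ℝ) + ∑ n ∈ Finset.range n1, (b n * |G n R| + 1)) ^ P := mul_pow _ _ _
      _ ≤ _ := mul_le_mul_of_nonneg_left h4 (by positivity)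
  refine (setLIntegral_mono' measurableSet_Icc hpt).trans ?_
  -- the integral
  have hGc : ∀ n ∈ Finset.range n1, Continuous fun R => (b n * G n R) ^ P := fun n hn =>
    (continuous_const.mul (hB n (Finset.mem_range.1 hn)).1.cont).pow P
  have hGi : ∀ n ∈ Finset.range n1, IntegrableOn (fun R => (b n * G n R) ^ P) (Icc X (2 * X)) := fun n hn =>
    (hGc n hn).continuousOn.integrableOn_compact isCompact_Icc
  have hsumc : Continuous fun R => ∑ n ∈ Finset.range n1, (b n * G n R) ^ P := continuous_finsetSum _ hGc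
  have hmaj : Continuous fun R => C₃ ^ P * (((n1 : ℝ) + 1) ^ P * (2 ^ P * ((X ^ (1 / 2 : ℝ)) ^ P + ∑ n ∈ Finset.range n1, (b n * G n R) ^ P))) :=
    continuous_const.mul (continuous_const.mul (continuous_const.mul (continuous_const.add hsumc)))
  have hterm0 : ∀ R, 0 ≤ ∑ n ∈ Finset.range n1, (b n * G n R) ^ P := fun R => Finset.sum_nonneg fun n hn =>
    pow_nonneg (mul_nonneg (hb0 n) ((hB n (Finset.mem_range.1 hn)).1.nonneg R)) _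
  rw [← ofReal_integral_eq_lintegral_ofReal (hmaj.continuousOn.integrableOn_compact isCompact_Icc)
    (Eventually.of_forall fun R => by
      have := hterm0 R
      show 0 ≤ C₃ ^ P * (((n1 : ℝ) + 1) ^ P * (2 ^ P * ((X ^ (1 / 2 : ℝ)) ^ P + ∑ n ∈ Finset.range n1, (b n * G n R) ^ P)))
      positivity)]
  refine ENNReal.ofReal_le_ofReal ?_
  obtain ⟨E, hE⟩ : ∃ E : ℝ, E = (P : ℝ) * θ - (2 * θ - 1) := ⟨_, rfl⟩
  have hone : ∀ n ∈ Finset.range n1, ∫ R in Icc X (2 * X), (b n * G n R) ^ P ≤ K * X ^ (E + P * e) := by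
    intro n hn
    have h1 := hB n (Finset.mem_range.1 hn)
    simp only [mul_pow]
    rw [integral_const_mul]
    refine (mul_le_mul_of_nonneg_left h1.1.mom (pow_nonneg (hb0 n) P)).trans ?_
    rw [hE, hb]
    exact h1.2
  have hsum : ∫ R in Icc X (2 * X), ∑ n ∈ Finset.range n1, (b n * G n R) ^ P ≤ (n1 : ℝ) * (K * X ^ (E + P * e)) := by
    rw [integral_finsetSum _ hGi]
    refine (Finset.sum_le_sum hone).trans (le_of_eq ?_)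
    rw [Finset.sum_const, Finset.card_range, nsmul_eq_mul]
  have hconst : ∫ _R in Icc X (2 * X), (X ^ (1 / 2 : ℝ)) ^ P = X ^ E := by
    rw [setIntegral_const, smul_eq_mul, Measure.real, hvol, ENNReal.toReal_ofReal hX0.le, ← rpow_natCast, ← rpow_mul hX0.le]
    nth_rewrite 1 [← rpow_one X]
    rw [← rpow_add hX0, hE, hA1]
    congr 1
    ring
  have hsplit : ∫ R in Icc X (2 * X), C₃ ^ P * (((n1 : ℝ) + 1) ^ P * (2 ^ P * ((X ^ (1 / 2 : ℝ)) ^ P + ∑ n ∈ Finset.range n1, (b n * G n R) ^ P))) =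
      C₃ ^ P * (((n1 : ℝ) + 1) ^ P * (2 ^ P * (X ^ E + ∫ R in Icc X (2 * X), ∑ n ∈ Finset.range n1, (b n * G n R) ^ P))) := by
    rw [integral_const_mul, integral_const_mul, integral_const_mul, integral_add, hconst]
    · exact continuousOn_const.integrableOn_compact isCompact_Icc
    · exact hsumc.continuousOn.integrableOn_compact isCompact_Icc
  rw [hsplit]
  have hXe1 : 1 ≤ X ^ e := one_le_rpow hX1 he.le
  have hn10 : (0 : ℝ) ≤ n1 := Nat.cast_nonneg n1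
  have h2e : 0 ≤ 2 / e + 2 := by positivity
  have h10 : X ^ E + ∫ R in Icc X (2 * X), ∑ n ∈ Finset.range n1, (b n * G n R) ^ P ≤ (1 + (2 / e + 2) * K) * X ^ (E + P * e + e) := by
    have h11 : X ^ E ≤ X ^ (E + P * e + e) := rpow_le_rpow_of_exponent_le hX1 (by linarith)
    have h12 : (n1 : ℝ) * (K * X ^ (E + P * e)) ≤ (2 / e + 2) * K * X ^ (E + P * e + e) := by
      have h13 : (n1 : ℝ) ≤ (2 / e + 2) * X ^ e := by linarith
      calc (n1 : ℝ) * (K * X ^ (E + P * e)) ≤ (2 / e + 2) * X ^ e * (K * X ^ (E + P * e)) := mul_le_mul_of_nonneg_right h13 (by positivity)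
        _ = (2 / e + 2) * K * (X ^ (E + P * e) * X ^ e) := by ring
        _ = _ := by rw [← rpow_add hX0]
    linarith
  have h14 : ((n1 : ℝ) + 1) ^ P ≤ (2 / e + 2) ^ P * X ^ (P * e) := by
    calc ((n1 : ℝ) + 1) ^ P ≤ ((2 / e + 2) * X ^ e) ^ P := pow_le_pow_left₀ (by linarith) hn1c P
      _ = (2 / e + 2) ^ P * X ^ (P * e) := by
        rw [mul_pow, ← rpow_natCast (X ^ e), ← rpow_mul hX0.le, mul_comm e]
  have hI0 : 0 ≤ X ^ E + ∫ R in Icc X (2 * X), ∑ n ∈ Finset.range n1, (b n * G n R) ^ P :=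
    add_nonneg (by positivity) (integral_nonneg hterm0)
  calc C₃ ^ P * (((n1 : ℝ) + 1) ^ P * (2 ^ P * (X ^ E + ∫ R in Icc X (2 * X), ∑ n ∈ Finset.range n1, (b n * G n R) ^ P)))
      ≤ C₃ ^ P * (((2 / e + 2) ^ P * X ^ (P * e)) * (2 ^ P * ((1 + (2 / e + 2) * K) * X ^ (E + P * e + e)))) := by
        refine mul_le_mul_of_nonneg_left (mul_le_mul h14 (mul_le_mul_of_nonneg_left h10 (by positivity)) (by positivity) (by positivity)) (by positivity)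
    _ = C₃ ^ P * ((2 / e + 2) ^ P * (2 ^ P * (1 + (2 / e + 2) * K))) * (X ^ (P * e) * X ^ (E + P * e + e)) := by ring
    _ = C₃ ^ P * ((2 / e + 2) ^ P * (2 ^ P * (1 + (2 / e + 2) * K))) * X ^ (E + 2 * P * e + e) := by
        rw [← rpow_add hX0]
        congr 2
        ring
    _ ≤ C₃ ^ P * ((2 / e + 2) ^ P * (2 ^ P * (1 + (2 / e + 2) * K))) * X ^ ((P : ℝ) * θ - (2 * θ - 1) + 3 * P * e) := by
        refine mul_le_mul_of_nonneg_left (rpow_le_rpow_of_exponent_le hX1 ?_) hbig0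
        rw [← hE]
        have : e ≤ P * e := by nlinarith
        linarith
    _ ≤ _ := mul_le_mul_of_nonneg_right (by have : 0 ≤ |C₄| ^ P := by positivity
                                            linarith) (by positivity)

end Pool.Agent.Helper75.LM
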