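import Pool.Agent.Helper75.GD.LMain
import Pool.Agent.Helper60.LQ.Two

/-!
# Project LM (MP_fb29e9_nt, AlmostEveryLattice): the `L^p` norms of the error at the worst centre. Definitions
-/

open MeasureTheory Real Set Filter Topology Metric
open scoped ENNReal NNReal

set_option autoImplicit false

namespace Pool.Agent.Helper75.LM

open Pool.Agent.Helper22.AE
open Pool.Agent.Helper22.AC (cntc ga)
open Pool.Agent.Helper92.GC (dt tp sqa)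
open Pool.Agent.Helper92.DT (m12)
open Pool.Agent.Helper75.TW (m20 J20 TB)
open Pool.Agent.Helper92.LA (JJ Fb HL WL lcnt)
open Pool.Agent.Helper22.LP (Fr fk fdet hom LS wr Hf)

/-- the density of the twentieth moment: `J20 f h X N` is its integral over `r` in `[X/4, 8X]` -/
noncomputable def d20 (f : Fr) (h : ℝ × ℝ → ℝ) (r : ℝ) (N : ℕ) : ℝ := m20 (sqa N) (fun k => ee (r * h (fk f k)))

/-- the density of the twelfth moment -/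
noncomputable def d12 (f : Fr) (h : ℝ × ℝ → ℝ) (r : ℝ) (N : ℕ) : ℝ := m12 (sqa N) (fun k => ee (r * h (fk f k)))

/-- what is used of the density `md` of a moment `J` of order `q` -/
structure Md (md : Fr → (ℝ × ℝ → ℝ) → ℝ → ℕ → ℝ) (J : Fr → (ℝ × ℝ → ℝ) → ℝ → ℕ → ℝ) (q : ℕ) : Prop where
  eq : ∀ f h X N, J f h X N = ∫ r in Icc (X / 4) (8 * X), md f h r N
  nonneg : ∀ f h r N, 0 ≤ md f h r N
  cont : ∀ (f : Fr) (h : ℝ → ℝ × ℝ → ℝ), (Continuous fun q : ℝ × (ℝ × ℝ) => h q.1 q.2) → ∀ N : ℕ, Continuous fun q : ℝ × ℝ => md f (h q.1) q.2 N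
  glob : ∀ M B : ℝ, 1 ≤ M → ∃ C : ℝ, 0 < C ∧ ∀ f : Fr, Fb M f → ∀ h : ℝ × ℝ → ℝ, HL B h → ∀ w : ℝ × ℝ → ℂ, WL B w →
    ∀ i : ℕ, i ≤ 2 → ∀ N : ℕ, 1 ≤ N → ∀ X : ℝ, 1 ≤ X → ∀ r ∈ Icc (X / 2) (4 * X), ∀ c : ℝ × ℝ, ‖LS f h w i N r c‖ ^ q ≤ C * (N : ℝ) ^ 3 * J f h X N
  win : ∀ M B : ℝ, 1 ≤ M → ∃ C : ℝ, 0 < C ∧ ∀ f : Fr, Fb M f → ∀ h : ℝ × ℝ → ℝ, HL B h → ∀ w : ℝ × ℝ → ℂ, WL B w →
    ∀ i : ℕ, i ≤ 2 → ∀ N : ℕ, 1 ≤ N → ∀ τ : ℝ, 0 < τ → ∀ r₀ r : ℝ, |r - r₀| ≤ τ → ∀ c : ℝ × ℝ,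
      ‖LS f h w i N r c‖ ^ q ≤ C * (N : ℝ) ^ 2 * (N + 1 / τ) * ∫ r' in Icc (r₀ - 2 * τ) (r₀ + 2 * τ), md f h r' N

/-- the size of a moment of order `q` which is needed for the small frequencies, for the norm of order `P = 2 q - 4` -/
noncomputable def SB (P q : ℕ) (θ X N : ℝ) : ℝ := X ^ (((P : ℝ) - 2) * (θ - 1 / 2)) * N ^ q

/-- the moment bound of order `P` for a frame, at the worst centre -/
def FM (H : ℝ → ℝ) (P : ℕ) (θ : ℝ) (f : Fr) : Prop :=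
  ∀ ε : ℝ, 0 < ε → ∃ C : ℝ, ∀ X : ℝ, 1 ≤ X →
    ∫⁻ R in Icc X (2 * X), ⨆ c : ℝ × ℝ, ENNReal.ofReal (|cntc (Hf H f) c R - area (Hf H f) * R ^ 2| ^ P) ≤
      ENNReal.ofReal (C * X ^ ((P : ℝ) * θ - (2 * θ - 1) + ε))

/-- the moment bound of order `P` for a lattice, at the worst centre -/
def LMo (H : ℝ → ℝ) (P : ℕ) (θ : ℝ) (ab : Fr) : Prop :=
  ∀ ε : ℝ, 0 < ε → ∃ C : ℝ, ∀ X : ℝ, 1 ≤ X →
    ∫⁻ R in Icc X (2 * X), ⨆ c : ℝ × ℝ, ENNReal.ofReal (|lcnt ab H c R - area H * R ^ 2 / abs (fdet ab)| ^ P) ≤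
      ENNReal.ofReal (C * X ^ ((P : ℝ) * θ - (2 * θ - 1) + ε))

/-- the block at the radius `R` -/
noncomputable def GB (κ g₀ : ℝ → ℝ) (D : ℝ × ℝ → ℝ) (α₀ A W : ℝ) (q : ℕ) (R : ℝ) : ℝ :=
  ∫ α in Icc (-α₀) α₀, κ α * min ((A * ∫ r in Icc (R - W) (R + W), D (α, r)) ^ (1 / (q : ℝ))) (g₀ α)

end Pool.Agent.Helper75.LM
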