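import Pool.Agent.Helper75.LM.Asm
import Pool.Agent.Helper75.LM.AllP

/-!
# Project LM: all orders, the exceptional sets
-/

open MeasureTheory Real Set Filter Topology Metric
open scoped ENNReal NNReal

set_option autoImplicit false

namespace Pool.Agent.Helper75.LM

open Pool.Agent.Helper22.AE
open Pool.Agent.Helper75.GD (LB)
open Pool.Agent.Helper92.LA (lcnt)
open Pool.Agent.Helper22.LP (Fr fdet)

/-- the exponent of the norm of order `p` -/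
noncomputable def ex (θ P : ℝ) (p : ℝ≥0∞) : ℝ := 1 / 2 + (θ - 1 / 2) * max 0 (1 - P * (p⁻¹).toReal)

/-- the bound of the norm of order `p` -/
def HB (H : ℝ → ℝ) (p : ℝ≥0∞) (e : ℝ) (ab : Fr) : Prop :=
  ∀ ε : ℝ, 0 < ε → ∃ C : ℝ,
    (p = ⊤ → ∀ R : ℝ, 1 ≤ R → ∀ c : ℝ × ℝ, |lcnt ab H c R - (area H * R ^ 2 / abs (fdet ab))| ≤ C * R ^ (e + ε)) ∧
    (p ≠ ⊤ → ∀ X : ℝ, 1 ≤ X → ∫⁻ R in Icc X (2 * X), ⨆ c : ℝ × ℝ, ENNReal.ofReal (|lcnt ab H c R - (area H * R ^ 2 / abs (fdet ab))| ^ p.toReal) ≤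
      ENNReal.ofReal (C * X ^ (1 + p.toReal * (e + ε))))

theorem HB.mono {H : ℝ → ℝ} {p : ℝ≥0∞} {e e' : ℝ} {ab : Fr} (h : HB H p e ab) (he : e ≤ e') : HB H p e' ab := by
  intro ε hε
  obtain ⟨C, h1, h2⟩ := h ε hε
  refine ⟨|C|, fun hp R hR c => (h1 hp R hR c).trans ?_, fun hp X hX => (h2 hp X hX).trans (ENNReal.ofReal_le_ofReal ?_)⟩
  · have hR0 : 0 < R := by linarith
    exact (mul_le_mul_of_nonneg_right (le_abs_self C) (by positivity)).trans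
      (mul_le_mul_of_nonneg_left (rpow_le_rpow_of_exponent_le hR (by linarith)) (abs_nonneg C))
  · have hX0 : 0 < X := by linarith
    refine (mul_le_mul_of_nonneg_right (le_abs_self C) (by positivity)).trans
      (mul_le_mul_of_nonneg_left (rpow_le_rpow_of_exponent_le hX ?_) (abs_nonneg C))
    have h3 : 0 ≤ p.toReal := ENNReal.toReal_nonneg
    nlinarith

/-- the pointwise bound gives the bound for every order -/
theorem HB_of_LB {H : ℝ → ℝ} {e : ℝ} (he : 0 ≤ e) {ab : Fr} (h : LB H e ab) {p : ℝ≥0∞} (hp : 0 < p) : HB H p e ab := by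
  intro ε hε
  by_cases hT : p = ⊤
  · obtain ⟨C, hC⟩ := h ε hε
    exact ⟨C, fun _ => hC, fun h => absurd hT h⟩
  · obtain ⟨C, hC⟩ := mean_of_LB he h (p := p.toReal) (ENNReal.toReal_pos hp.ne' hT) hε
    exact ⟨C, fun h => absurd h hT, fun _ => hC⟩

/-- the bound for every order, from the two norms -/
theorem HB_all {H : ℝ → ℝ} {P : ℕ} (hP : 1 ≤ P) {θ : ℝ} (hθ : 1 / 2 < θ) (hPθ : (P : ℝ) * (θ - 1 / 2) = 2 * θ) {ab : Fr} (h1 : LB H θ ab) (h2 : LMo H P θ ab)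
    {p : ℝ≥0∞} (hp : 0 < p) : HB H p (ex θ P p) ab := by
  intro ε hε
  by_cases hT : p = ⊤
  · obtain ⟨C, hC⟩ := h1 ε hε
    refine ⟨C, fun _ => ?_, fun h => absurd hT h⟩
    have e1 : ex θ P p = θ := by
      unfold ex
      rw [hT]
      simp
    rw [e1]
    exact hC
  · obtain ⟨C, hC⟩ := all_p hP hθ hPθ h1 h2 (p := p.toReal) (ENNReal.toReal_pos hp.ne' hT) hε
    refine ⟨C, fun h => absurd h hT, fun _ => ?_⟩
    have e1 : ex θ P p = 1 / 2 + (θ - 1 / 2) * max 0 (1 - P / p.toReal) := by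
      unfold ex
      rw [ENNReal.toReal_inv, ← div_eq_mul_inv]
    rw [e1]
    exact hC

/-- the exceptional sets -/
theorem small_of {H : ℝ → ℝ} {P : ℕ} {θ : ℝ} {d : ℝ → ℝ} (hP : 1 ≤ P) (hθ : 1 / 2 < θ) (hPθ : (P : ℝ) * (θ - 1 / 2) = 2 * θ)
    (h1 : ∀ᵐ ab : Fr, fdet ab ≠ 0 ∧ LB H θ ab) (h2 : ∀ᵐ ab : Fr, fdet ab ≠ 0 ∧ LMo H P θ ab)
    (h3 : ∀ e : ℝ, θ ≤ e → e ≤ 5 / 8 → μH[d e] {ab : Fr | fdet ab ≠ 0 ∧ ¬ LB H e ab} = 0) {e : ℝ} (he1 : e ≤ 5 / 8) (h4 : e < θ → 4 < d e) :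
    volume {ab : Fr | fdet ab ≠ 0 ∧ ∃ p : ℝ≥0∞, 0 < p ∧ ex θ P p ≤ e ∧ ¬ HB H p e ab} = 0 ∧
      μH[d e] {ab : Fr | fdet ab ≠ 0 ∧ ∃ p : ℝ≥0∞, 0 < p ∧ ex θ P p ≤ e ∧ ¬ HB H p e ab} = 0 := by
  constructor
  · have h5 : ∀ᵐ ab : Fr, ¬ (fdet ab ≠ 0 ∧ ∃ p : ℝ≥0∞, 0 < p ∧ ex θ P p ≤ e ∧ ¬ HB H p e ab) := by
      filter_upwards [h1, h2] with ab ha hb
      rintro ⟨-, p, hp, hpe, hn⟩
      exact hn ((HB_all hP hθ hPθ ha.2 hb.2 hp).mono hpe)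
    have h6 := ae_iff.1 h5
    simpa only [not_not] using h6
  · rcases lt_or_ge e θ with h | h
    · exact haus_big (h4 h) _
    · refine measure_mono_null ?_ (h3 e h he1)
      rintro ab ⟨ha, p, hp, -, hn⟩
      exact ⟨ha, fun hl => hn (HB_of_LB (by linarith) hl hp)⟩

end Pool.Agent.Helper75.LM
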