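import Pool.Agent.Helper75.LM.Blk

/-!
# Project LM: numbers
-/

open MeasureTheory Real Set Filter Topology Metric
open scoped ENNReal NNReal

set_option autoImplicit false

namespace Pool.Agent.Helper75.LM

open Pool.Agent.Helper75.TW (TB TB_pos)

/-- the power of a sum -/
theorem sum_pow_bd (P m : ℕ) {b : ℕ → ℝ} (hb : ∀ n, 0 ≤ b n) {y : ℝ} (hy : 1 ≤ y) :
    (y + ∑ n ∈ Finset.range m, (b n + 1)) ^ P ≤ ((m : ℝ) + 1) ^ P * (2 ^ P * (y ^ P + ∑ n ∈ Finset.range m, b n ^ P)) := by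
  have hS : 0 ≤ ∑ n ∈ Finset.range m, b n ^ P := Finset.sum_nonneg fun n _ => pow_nonneg (hb n) _
  have hm0 : (0 : ℝ) ≤ m := Nat.cast_nonneg m
  obtain ⟨M, hM0, hM1, hM2⟩ : ∃ M : ℝ, 0 ≤ M ∧ (∀ n ∈ Finset.range m, b n ≤ M) ∧ M ^ P ≤ 1 ^ P + ∑ n ∈ Finset.range m, b n ^ P := by
    rcases Nat.eq_zero_or_pos m with h0 | h0
    · refine ⟨0, le_rfl, ?_, ?_⟩
      · intro n hn
        rw [h0] at hn
        simp at hn
      · have h1 : (0 : ℝ) ^ P ≤ 1 ^ P := pow_le_pow_left₀ le_rfl (by norm_num) P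
        linarith
    · obtain ⟨k, hk, hk2⟩ := Finset.exists_max_image (Finset.range m) b ⟨0, Finset.mem_range.2 h0⟩
      refine ⟨b k, hb k, hk2, ?_⟩
      have h1 := Finset.single_le_sum (f := fun n => b n ^ P) (fun n _ => pow_nonneg (hb n) P) hk
      have h2 : (0 : ℝ) ≤ 1 ^ P := by positivity
      linarith
  have h1 : y + ∑ n ∈ Finset.range m, (b n + 1) ≤ ((m : ℝ) + 1) * (y + M) := by
    have h2 : ∑ n ∈ Finset.range m, (b n + 1) ≤ ∑ _n ∈ Finset.range m, (M + y) := Finset.sum_le_sum fun n hn => add_le_add (hM1 n hn) hy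
    rw [Finset.sum_const, Finset.card_range, nsmul_eq_mul] at h2
    nlinarith
  have h3 : (y + M) ^ P ≤ 2 ^ P * (y ^ P + ∑ n ∈ Finset.range m, b n ^ P) := by
    rcases le_total M y with h | h
    · calc (y + M) ^ P ≤ (2 * y) ^ P := pow_le_pow_left₀ (by linarith) (by linarith) P
        _ = 2 ^ P * y ^ P := mul_pow _ _ _
        _ ≤ _ := mul_le_mul_of_nonneg_left (by linarith) (by positivity)
    · have h4 : (1 : ℝ) ^ P ≤ y ^ P := pow_le_pow_left₀ (by norm_num) hy P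
      calc (y + M) ^ P ≤ (2 * M) ^ P := pow_le_pow_left₀ (by linarith) (by linarith) P
        _ = 2 ^ P * M ^ P := mul_pow _ _ _
        _ ≤ _ := mul_le_mul_of_nonneg_left (by linarith) (by positivity)
  have hs0 : 0 ≤ ∑ n ∈ Finset.range m, (b n + 1) := Finset.sum_nonneg fun n _ => by
    have := hb n
    linarith
  calc (y + ∑ n ∈ Finset.range m, (b n + 1)) ^ P ≤ (((m : ℝ) + 1) * (y + M)) ^ P := pow_le_pow_left₀ (by linarith) h1 P
    _ = ((m : ℝ) + 1) ^ P * (y + M) ^ P := mul_pow _ _ _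
    _ ≤ _ := mul_le_mul_of_nonneg_left h3 (by positivity)

/-- the window -/
theorem win_num {X N e κ C I : ℝ} (hX : 1 ≤ X) (hN : 1 ≤ N) (hN1 : N ≤ X ^ (1 / 2 + e)) (he : 0 < e) (hκ : 0 < κ) (hC : 0 ≤ C) (hI : 0 ≤ I) (q : ℕ) :
    21 ^ q * (2 * (2 * (κ * X ^ (-(1 / 2) : ℝ))) * (C * N ^ 2 * (N + 1 / (κ * X ^ (-(1 / 2) : ℝ))) * I)) ≤ (21 ^ q * (4 * (κ + 1) * C)) * (N ^ 2 * X ^ e * I) := by
  have hX0 : 0 < X := by linarith
  obtain ⟨w, hw⟩ : ∃ w : ℝ, w = κ * X ^ (-(1 / 2) : ℝ) := ⟨_, rfl⟩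
  have hw0 : 0 < w := by
    rw [hw]
    positivity
  have h1 : w * (N + 1 / w) ≤ (κ + 1) * X ^ e := by
    have h2 : w * (N + 1 / w) = w * N + 1 := by field_simp
    have h3 : w * N ≤ κ * X ^ e := by
      rw [hw, mul_assoc]
      refine mul_le_mul_of_nonneg_left ?_ hκ.le
      calc X ^ (-(1 / 2) : ℝ) * N ≤ X ^ (-(1 / 2) : ℝ) * X ^ (1 / 2 + e) := mul_le_mul_of_nonneg_left hN1 (by positivity)
        _ = X ^ e := by
          rw [← rpow_add hX0]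
          congr 1
          ring
    have h4 : 1 ≤ X ^ e := one_le_rpow hX he.le
    rw [h2]
    linarith
  rw [← hw]
  have h5 : 0 ≤ 21 ^ q * (4 * (C * N ^ 2 * I)) := by positivity
  have h6 := mul_le_mul_of_nonneg_left h1 h5
  calc 21 ^ q * (2 * (2 * w) * (C * N ^ 2 * (N + 1 / w) * I)) = 21 ^ q * (4 * (C * N ^ 2 * I)) * (w * (N + 1 / w)) := by ring
    _ ≤ _ := h6
    _ = _ := by ring

theorem exp_pow_real (x : ℝ) (k : ℕ) : exp x ^ k = exp (k * x) := (exp_nat_mul x k).symm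

/-- the small frequencies -/
theorem num_small {P q : ℕ} (hq : 4 ≤ q) (hP : P + 4 = 2 * q) {θ e X N : ℝ} (hX : 1 ≤ X) (hN : 1 ≤ N) (he : 0 < e) :
    (X ^ (1 / 2 : ℝ) * N ^ (-(3 / 2) : ℝ)) ^ P * ((N ^ 2) ^ (P - q) * (N ^ 2 * X ^ e * (X ^ e * SB P q θ X N))) ≤ X ^ ((P : ℝ) * θ - (2 * θ - 1) + P * e) := by
  have hX0 : 0 < X := by linarith
  have hN0 : 0 < N := by linarith
  have hPq : ((P - q : ℕ) : ℝ) = (P : ℝ) - q := by
    rw [Nat.cast_sub (by omega)]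
  have hP' : (P : ℝ) = 2 * q - 4 := by
    have : (P : ℝ) + 4 = 2 * q := by exact_mod_cast hP
    linarith
  have hq' : (4 : ℝ) ≤ q := by exact_mod_cast hq
  obtain ⟨x, rfl⟩ : ∃ x, X = exp x := ⟨log X, (exp_log hX0).symm⟩
  obtain ⟨n, rfl⟩ : ∃ n, N = exp n := ⟨log N, (exp_log hN0).symm⟩
  have hx : 0 ≤ x := one_le_exp_iff.1 hX
  unfold SB
  simp only [← exp_mul, exp_pow_real, ← exp_add, exp_le_exp]
  push_cast
  rw [hPq, hP']
  have h1 : 0 ≤ (2 * (q : ℝ) - 6) * (e * x) := mul_nonneg (by linarith) (by positivity)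
  nlinarith

/-- the other frequencies -/
theorem num_mid {P q : ℕ} (hq : 2 ≤ q) (hqP : q ≤ P) {θ e X N : ℝ} (hX : 1 ≤ X) (hN : 1 ≤ N) (hN1 : X ^ (2 * θ - 1) ≤ N) (he : 0 < e) :
    (X ^ (1 / 2 : ℝ) * N ^ (-(3 / 2) : ℝ)) ^ P * ((X ^ (θ - 1 / 2 + e) * N ^ (3 / 2 : ℝ)) ^ (P - q) * (N ^ 2 * X ^ e * (X ^ e * TB q θ X N))) ≤
      X ^ ((P : ℝ) * θ - (2 * θ - 1) + P * e) := by
  have hX0 : 0 < X := by linarith
  have hN0 : 0 < N := by linarith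
  have hPq : ((P - q : ℕ) : ℝ) = (P : ℝ) - q := by
    rw [Nat.cast_sub hqP]
  have hq' : (2 : ℝ) ≤ q := by exact_mod_cast hq
  obtain ⟨x, rfl⟩ : ∃ x, X = exp x := ⟨log X, (exp_log hX0).symm⟩
  obtain ⟨n, rfl⟩ : ∃ n, N = exp n := ⟨log N, (exp_log hN0).symm⟩
  have hx : 0 ≤ x := one_le_exp_iff.1 hX
  rw [← exp_mul, exp_le_exp] at hN1
  unfold TB
  simp only [← exp_mul, ← exp_add, exp_pow_real, ← exp_sub, exp_le_exp]
  rw [hPq]
  push_cast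
  have h1 : 0 ≤ ((q : ℝ) - 2) * (e * x) := mul_nonneg (by linarith) (by positivity)
  nlinarith

/-- Hoelder -/
theorem holdq {q : ℕ} (hq : 1 ≤ q) {α₀ : ℝ} {κ J : ℝ → ℝ} (hκ : Continuous κ) (hκ0 : ∀ α, 0 ≤ κ α) (hJ : Continuous J) (hJ0 : ∀ α, 0 ≤ J α)
    (hκ1 : ∫ α in Icc (-α₀) α₀, κ α ≤ 20) {l : ℝ} (hl : 0 < l) (hJ1 : ∫ α in Icc (-α₀) α₀, κ α * J α ≤ l ^ q) :
    ∫ α in Icc (-α₀) α₀, κ α * J α ^ (1 / (q : ℝ)) ≤ 21 * l := by
  obtain ⟨k, rfl⟩ : ∃ k, q = k + 1 := ⟨q - 1, by omega⟩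
  have hq : (0 : ℝ) < (k : ℝ) + 1 := by positivity
  have hpt : ∀ α, κ α * J α ^ (1 / ((k + 1 : ℕ) : ℝ)) ≤ l * κ α + 1 / l ^ k * (κ α * J α) := by
    intro α
    have h1 : J α ^ (1 / ((k + 1 : ℕ) : ℝ)) ≤ l + 1 / l ^ k * J α := by
      obtain ⟨y, hy⟩ : ∃ y : ℝ, y = J α ^ (1 / ((k + 1 : ℕ) : ℝ)) := ⟨_, rfl⟩
      have hy0 : 0 ≤ y := by
        rw [hy]
        exact rpow_nonneg (hJ0 α) _
      have hy12 : y ^ (k + 1) = J α := by
        rw [hy, ← rpow_natCast, ← rpow_mul (hJ0 α)]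
        push_cast
        rw [one_div, inv_mul_cancel₀ hq.ne', rpow_one]
      rw [← hy, ← hy12]
      rcases le_total y l with h | h
      · have : 0 ≤ 1 / l ^ k * y ^ (k + 1) := by positivity
        linarith
      · have h2 : l ^ k ≤ y ^ k := pow_le_pow_left₀ hl.le h k
        have h3 : y ≤ 1 / l ^ k * y ^ (k + 1) := by
          rw [one_div, inv_mul_eq_div, le_div_iff₀ (by positivity)]
          calc y * l ^ k ≤ y * y ^ k := mul_le_mul_of_nonneg_left h2 hy0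
            _ = y ^ (k + 1) := by ring
        linarith
    calc κ α * J α ^ (1 / ((k + 1 : ℕ) : ℝ)) ≤ κ α * (l + 1 / l ^ k * J α) := mul_le_mul_of_nonneg_left h1 (hκ0 α)
      _ = _ := by ring
  have hJc : Continuous fun α => J α ^ (1 / ((k + 1 : ℕ) : ℝ)) := hJ.rpow_const fun _ => Or.inr (by positivity)
  calc ∫ α in Icc (-α₀) α₀, κ α * J α ^ (1 / ((k + 1 : ℕ) : ℝ)) ≤ ∫ α in Icc (-α₀) α₀, (l * κ α + 1 / l ^ k * (κ α * J α)) := by
        refine setIntegral_mono_on ?_ ?_ measurableSet_Icc fun α _ => hpt α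
        · exact (hκ.mul hJc).continuousOn.integrableOn_compact isCompact_Icc
        · exact ((continuous_const.mul hκ).add (continuous_const.mul (hκ.mul hJ))).continuousOn.integrableOn_compact isCompact_Icc
    _ = l * (∫ α in Icc (-α₀) α₀, κ α) + 1 / l ^ k * ∫ α in Icc (-α₀) α₀, κ α * J α := by
        rw [integral_add, integral_const_mul, integral_const_mul]
        · exact (continuous_const.mul hκ).continuousOn.integrableOn_compact isCompact_Icc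
        · exact (continuous_const.mul (hκ.mul hJ)).continuousOn.integrableOn_compact isCompact_Icc
    _ ≤ l * 20 + 1 / l ^ k * l ^ (k + 1) := by
        have h2 : 0 ≤ 1 / l ^ k := by positivity
        have := mul_le_mul_of_nonneg_left hκ1 hl.le
        have := mul_le_mul_of_nonneg_left hJ1 h2
        linarith
    _ = 21 * l := by
        rw [pow_succ]
        field_simp
        ring

/-- the moment bound against the target -/
theorem tb_le {q : ℕ} (hq : 1 ≤ q) {θ e X N C₁ C₂ D : ℝ} (hX : 1 ≤ X) (hN : 0 < N) (he : 0 ≤ e) (hC₁ : 0 ≤ C₁) (hC₂ : 0 ≤ C₂) (hD : 1 ≤ D)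
    (hCD : C₁ * C₂ ≤ D) : C₂ * N ^ 3 * (C₁ * (X ^ e * TB q θ X N)) ≤ (D * (X ^ (θ - 1 / 2 + e) * N ^ (3 / 2 : ℝ))) ^ q := by
  have hX0 : 0 < X := by linarith
  unfold TB
  have h1 : C₂ * N ^ 3 * (C₁ * (X ^ e * ((X ^ (θ - 1 / 2) * N ^ (3 / 2 : ℝ)) ^ q / N ^ 3))) =
      (C₁ * C₂) * (X ^ e * (X ^ (θ - 1 / 2) * N ^ (3 / 2 : ℝ)) ^ q) := by
    field_simp
  have h2 : D * (X ^ (θ - 1 / 2 + e) * N ^ (3 / 2 : ℝ)) = D * (X ^ e * (X ^ (θ - 1 / 2) * N ^ (3 / 2 : ℝ))) := by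
    rw [rpow_add hX0]
    ring
  rw [h1, h2, mul_pow D, mul_pow (X ^ e)]
  have h3 : C₁ * C₂ ≤ D ^ q := hCD.trans (by
    calc D = D ^ 1 := (pow_one D).symm
      _ ≤ D ^ q := pow_le_pow_right₀ hD hq)
  have h4 : X ^ e ≤ (X ^ e) ^ q := by
    have h5 : 1 ≤ X ^ e := one_le_rpow hX he
    calc X ^ e = (X ^ e) ^ 1 := (pow_one _).symm
      _ ≤ (X ^ e) ^ q := pow_le_pow_right₀ h5 hq
  have h5 : 0 ≤ (X ^ (θ - 1 / 2) * N ^ (3 / 2 : ℝ)) ^ q := by positivity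
  exact mul_le_mul h3 (mul_le_mul_of_nonneg_right h4 h5) (by positivity) (by positivity)

end Pool.Agent.Helper75.LM
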